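import Pool.Agent.H621.AF.Pub2
import Pool.Agent.H802T.PubA

/-!
# Polarized products: definitions
-/

open CategoryTheory AlgebraicGeometry

universe u

namespace Pool.Agent.H621.AF

section alg

variable {K A : Type} [Field K] [Ring A] [Algebra K A]

/-- `d` is an element of `C 1` which satisfies the hard Lefschetz theorem. -/
def IsHard (gr : ℕ → Submodule K A) (C : ℕ → Set A) (n : ℕ) (d : A) : Prop :=
  d ∈ C 1 ∧ Pool.Agent.H802T.HardElt gr n d

/-- For `2 j ≤ n` every element of `C (n - j)` is the product of `d ^ (n - 2 j)` with an element of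
`C j`. -/
def LefElt (C : ℕ → Set A) (n : ℕ) (d : A) : Prop :=
  ∀ j, 2 * j ≤ n → ∀ c ∈ C (n - j), ∃ c' ∈ C j, d ^ (n - 2 * j) * c' = c

/-- For `2 j ≤ n` and every primitive element `c ≠ 0` of `C j` the number `tr (c d ^ (n - 2 j) c)` is
rational with the sign `(-1) ^ j`. -/
def HodgeElt (tr : A →ₗ[K] K) (C : ℕ → Set A) (n : ℕ) (d : A) : Prop :=
  ∀ j, 2 * j ≤ n → ∀ c ∈ C j, d ^ (n - 2 * j + 1) * c = 0 → c ≠ 0 →
    ∃ q : ℚ, 0 < q ∧ tr (c * (d ^ (n - 2 * j) * c)) = (-1) ^ j * (q : K)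

/-- The element `f a + g b`. -/
def addPull {A' B' : Type} [Ring A'] [Algebra K A'] [Ring B'] [Algebra K B'] (f : A' →ₐ[K] A)
    (g : B' →ₐ[K] A) (a : A') (b : B') : A := f a + g b

end alg

open Pool.Agent.TH125.Gal
open Pool.Agent.H914 Pool.Agent.H914.VarClass Pool.Agent.H914.VarClass.Obj

variable {k : Type u} [Field k] {𝒱 : VarClass k} {ops : CycleOps 𝒱}

/-- A variety with an action of the group and a cohomology class. -/
structure PVar (W : WeilCohomology.{u, 0} ops) (Γ : Type) [Group Γ] where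
  /-- the variety -/
  V : GVar W Γ
  /-- the class -/
  c : W.H V.X

variable {W : WeilCohomology.{u, 0} ops} {Γ : Type} [Group Γ]

/-- The class is the class of a divisor which satisfies the hard Lefschetz theorem. -/
def PVar.IsLefschetz (X : PVar W Γ) : Prop :=
  IsHard (W.gr X.V.X) (algClasses W X.V.X) X.V.X.dim X.c

/-- The conjecture `A(X, c)` of Lefschetz type. -/
def PVar.ConjectureA (X : PVar W Γ) : Prop := LefElt (algClasses W X.V.X) X.V.X.dim X.c

/-- The conjecture of Hodge type for `(X, c)`. -/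
def PVar.HodgeType (X : PVar W Γ) : Prop :=
  HodgeElt (W.tr X.V.X) (algClasses W X.V.X) X.V.X.dim X.c

/-- `Y'` is the product of `X` and `Y`, with the sum of the pull-backs of the classes. -/
def IsSumProduct (X Y Y' : PVar W Γ) : Prop :=
  IsProduct X.V Y.V Y'.V ∧ ∃ h : Y'.V.X = X.V.X.prod Y.V.X,
    Y'.c = addPull (W.map (eqToHom h ≫ fst X.V.X Y.V.X)) (W.map (eqToHom h ≫ snd X.V.X Y.V.X)) X.c Y.c

/-- `Y = X_1 × (X_2 × ( ⋯ × Z))` as in `IsTower`, with the sum of the pull-backs of the classes. -/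
inductive IsSumTower {J : Type} (F : J → Set (GVar W Γ)) (Z : PVar W Γ) :
    List (J × PVar W Γ) → PVar W Γ → Prop
  | base : IsSumTower F Z [] Z
  | step {l Y Y'} (i : J) (X : PVar W Γ) : IsSumTower F Z l Y → (∀ p ∈ l, p.1 ≠ i) → X.V ∈ F i →
      IsSumProduct X Y Y' → IsSumTower F Z ((i, X) :: l) Y'

/-- The list of the varieties. -/
def forget {J : Type} (l : List (J × PVar W Γ)) : List (J × GVar W Γ) :=
  l.map fun p => (p.1, p.2.V)

/-- The Tate conjecture and the conjecture D hold for `X`. -/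
def IsKnown (χ : Γ →* W.Kˣ) (X : GVar W Γ) : Prop := TateConjecture χ X ∧ ConjectureD X

/-- The Tate conjecture and the conjecture D hold for all `X_r` in the list
`l = [(i_1, X_1), (i_2, X_2), …]`, or they hold for `Z` and for all `X_r` except those with one
index `i`. -/
def KnownForAllButOne (χ : Γ →* W.Kˣ) {J : Type} (Z : GVar W Γ) (l : List (J × GVar W Γ)) : Prop :=
  (∀ p ∈ l, IsKnown χ p.2) ∨ IsKnown χ Z ∧ ∃ i, ∀ p ∈ l, p.1 ≠ i → IsKnown χ p.2

end Pool.Agent.H621.AF
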