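import Pool.Agent.H621.AF.DeeT
import Pool.Agent.H621.AF.Pub3
import Pool.Agent.H802T.LefA

/-!
# Divisors with hard Lefschetz and the conjecture A for the products with the members outside of the
# exceptional set
-/

open CategoryTheory AlgebraicGeometry Finset Module

set_option linter.unusedSectionVars false

universe u

namespace Pool.Agent.H621.AF

open Pool.Agent.TH125.Gal
open Pool.Agent.H914 Pool.Agent.H914.VarClass Pool.Agent.H914.VarClass.Obj
  Pool.Agent.H914.WeilCohomology Pool.Agent.H281R3.HT Pool.Agent.W552 Pool.Agent.TH132.A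

variable {k : Type u} [Field k] {𝒱 : VarClass k} {ops : CycleOps 𝒱}
  {W : WeilCohomology.{u, 0} ops}

theorem isHard_iff {X : 𝒱.Obj} {d : W.H X} :
    IsHard (W.gr X) (algClasses W X) X.dim d ↔
      ∃ D, W.cl X D = d ∧ X.IsCyc 1 D ∧ HardLefschetz W X D := by
  constructor
  · rintro ⟨⟨D, hD, rfl⟩, h⟩
    exact ⟨D, rfl, hD, (Pool.Agent.H802T.hardElt_iff X D).1 h⟩
  · rintro ⟨D, rfl, hD, h⟩
    exact ⟨⟨D, hD, rfl⟩, (Pool.Agent.H802T.hardElt_iff X D).2 h⟩

theorem lefElt_iff (X : 𝒱.Obj) (D : X.Cycles) :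
    LefElt (algClasses W X) X.dim (W.cl X D) ↔ LefschetzA W X D := by
  unfold LefElt LefschetzA
  constructor
  · intro h j hj z hz
    obtain ⟨c', ⟨z', h1, h2⟩, h3⟩ := h j hj _ ⟨z, hz, rfl⟩
    refine ⟨z', h1, ?_⟩
    rw [cl_divPow, LinearMap.pow_mulLeft, LinearMap.mulLeft_apply, h2, h3]
  · rintro h j hj _ ⟨z, hz, rfl⟩
    obtain ⟨z', h1, h2⟩ := h j hj z hz
    refine ⟨_, ⟨z', h1, rfl⟩, ?_⟩
    rw [← h2, cl_divPow, LinearMap.pow_mulLeft, LinearMap.mulLeft_apply]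

section step

variable {X U : 𝒱.Obj} {D : X.Cycles} {E : U.Cycles} {f : Module.End W.K (W.H X)}
  {g : Module.End W.K (W.H U)}

theorem stable_factor1 (hE : U.IsCyc 1 E) (tg : Low W U E g)
    (hU : ∃ a ∈ algClasses W U U.dim, W.tr U a ≠ 0)
    (h : Stable W (X.prod U) (extSum W f g)) : Stable W X f := by
  intro x hx
  obtain ⟨τ, hτ, hτ1⟩ := hU
  have h1 := h _ (hx.ext (Y := U) AS.one)
  rw [H281R3.HT.ext, extSum_tmul, low_one hE tg, map_zero, mul_zero, add_zero, map_one,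
    mul_one] at h1
  have h2 := (h1.mul ((AS.of hτ).map (snd X U))).push (fst X U)
  rw [push_fst _ (alg_gr hτ)] at h2
  obtain ⟨q, hq⟩ := (AS.of hτ).tr
  have hq0 : q ≠ 0 := by
    rintro rfl
    exact hτ1 (by rw [hq, Rat.cast_zero])
  have h3 := h2.smul q⁻¹
  rw [hq, smul_smul, ← Rat.cast_mul, inv_mul_cancel₀ hq0, Rat.cast_one, one_smul] at h3
  exact h3

theorem lefA_step (hS : ClSplit W X U) (hD : X.IsCyc 1 D) (hE : U.IsCyc 1 E)
    (hHX : HardLefschetz W X D) (hHU : HardLefschetz W U E)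
    (hX : ∃ a ∈ algClasses W X X.dim, W.tr X a ≠ 0)
    (hU : ∃ a ∈ algClasses W U U.dim, W.tr U a ≠ 0) :
    LefschetzA W (X.prod U) (ops.pull (fst X U) D + ops.pull (snd X U) E) ↔
      LefschetzA W U E ∧ LefschetzA W X D := by
  have hC : (X.prod U).IsCyc 1 (ops.pull (fst X U) D + ops.pull (snd X U) E) :=
    SmVar.IsCyc.add (ops.pull_mem _ hD) (ops.pull_mem _ hE)
  have hDE : W.cl _ (ops.pull (fst X U) D + ops.pull (snd X U) E) =
      W.map (fst X U) (W.cl X D) + W.map (snd X U) (W.cl U E) := by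
    rw [map_add, W.cl_pull, W.cl_pull]
  constructor
  · intro h
    obtain ⟨f, tf⟩ := exists_low hD hHX
    obtain ⟨g, tg⟩ := exists_low hE hHU
    have t := low_prod hE tf tg
    have h1 := (stable_iff hC t).2 h
    have h2 := (stable_iff hD tf).1 (stable_factor1 hE tg hU h1)
    exact ⟨(lefschetzA_prod_iff hS hD hE hC hDE hHX hHU h2 (one_ne_of_point hX)).1 h, h2⟩
  · rintro ⟨h1, h2⟩
    exact (lefschetzA_prod_iff hS hD hE hC hDE hHX hHU h2 (one_ne_of_point hX)).2 h1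

end step

section twr

variable {Γ : Type} [Group Γ] {χ : Γ →* W.Kˣ} {P : FinRep W.K Γ} {J : Type}
  {F : J → Set (GVar W Γ)}

theorem IsSumTower.tower {Z : PVar W Γ} {l : List (J × PVar W Γ)} {Y : PVar W Γ}
    (h : IsSumTower F Z l Y) : IsTower F Z.V (forget l) Y.V := by
  induction h with
  | base => exact IsTower.base
  | @step l Y Y' i X hT hi hX hP ih =>
    refine IsTower.step i X.V ih ?_ hX hP.1
    intro p hp
    obtain ⟨q, hq, rfl⟩ := List.mem_map.1 hp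
    exact hi q hq

theorem KnownForAllButOne.tate {Z : GVar W Γ} {l : List (J × GVar W Γ)}
    (h : KnownForAllButOne χ Z l) : TateForAllButOne χ Z l := by
  rcases h with h | ⟨h, i, h'⟩
  · exact Or.inl fun p hp => (h p hp).1
  · exact Or.inr ⟨h.1, i, fun p hp hpi => (h' p hp hpi).1⟩

theorem KnownForAllButOne.tail {Z : GVar W Γ} {q : J × GVar W Γ} {l : List (J × GVar W Γ)}
    (h : KnownForAllButOne χ Z (q :: l)) : KnownForAllButOne χ Z l := by
  rcases h with h | ⟨h, i, h'⟩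
  · exact Or.inl fun p hp => h p (List.mem_cons_of_mem _ hp)
  · exact Or.inr ⟨h, i, fun p hp => h' p (List.mem_cons_of_mem _ hp)⟩

/-- One of the two factors is known. -/
theorem known_or [IsAlgClosed W.K] (hF : IndependentFamily χ F) {S : Finset J}
    (hS : ∀ B : Finset J, ∀ i, i ∉ (S : Set J) ∪ B → ¬ LinkedTo χ P F ((S : Set J) ∪ B) i)
    {Z : GVar W Γ} (hZd : RespectsDegrees Z) (hZp : HasPoint Z)
    (hZ : EigenvaluesFrom χ P F S Z) (hcl : ∀ l Y, IsTower F Z l Y → RespectsCycles χ Y)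
    {l : List (J × GVar W Γ)} {Y : GVar W Γ} (hY : IsTower F Z l Y) (hl : ∀ p ∈ l, p.1 ∉ S)
    {i : J} (hi : ∀ p ∈ l, p.1 ≠ i) {X : GVar W Γ} (h : KnownForAllButOne χ Z ((i, X) :: l)) :
    IsKnown χ X ∨ IsKnown χ Y := by
  rcases h with h | ⟨h, i', h'⟩
  · exact Or.inl (h (i, X) List.mem_cons_self)
  · by_cases hii : i = i'
    · subst hii
      have h2 : ∀ p ∈ l, IsKnown χ p.2 := fun p hp => h' p (List.mem_cons_of_mem _ hp) (hi p hp)
      exact Or.inr ⟨(tate_tower hF hS hZd hZp hZ hY hl).2 ⟨h.1, fun p hp => (h2 p hp).1⟩,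
        (dee_tower hF hS hZd hZp hZ hcl hY hl (Or.inl fun p hp => (h2 p hp).1)).2
          ⟨h.2, fun p hp => (h2 p hp).2⟩⟩
    · exact Or.inl (h' (i, X) List.mem_cons_self hii)

/-- The cycles on one step split. -/
theorem clSplit_step [IsAlgClosed W.K] (hF : IndependentFamily χ F) {S : Finset J}
    (hS : ∀ B : Finset J, ∀ i, i ∉ (S : Set J) ∪ B → ¬ LinkedTo χ P F ((S : Set J) ∪ B) i)
    {Z : GVar W Γ} (hZd : RespectsDegrees Z) (hZp : HasPoint Z)
    (hZ : EigenvaluesFrom χ P F S Z) (hcl : ∀ l Y, IsTower F Z l Y → RespectsCycles χ Y)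
    {l : List (J × GVar W Γ)} {Y : GVar W Γ} (hY : IsTower F Z l Y)
    {i : J} {X Y' : GVar W Γ} (hl : ∀ p ∈ (i, X) :: l, p.1 ∉ S) (hi : ∀ p ∈ l, p.1 ≠ i)
    (hX : X ∈ F i) (hP : IsProduct X Y Y') (h : KnownForAllButOne χ Z ((i, X) :: l)) :
    TH132.A.ClSplit W X.X Y.X := by
  have hU := tower_unlinked hF hS hZd hZ hY hi (hl _ List.mem_cons_self) hX
  obtain ⟨hYd, -, hYp⟩ := tower_props hF hZd hZ hY
  have hor := known_or hF hS hZd hZp hZ hcl hY (fun p hp => hl p (List.mem_cons_of_mem _ hp)) hi h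
  have hcl' := hcl _ _ (IsTower.step i X hY hi hX hP)
  obtain ⟨YX, υ⟩ := Y'
  obtain ⟨h0, h1, h2⟩ := hP
  change YX = X.X.prod Y.X at h0
  subst h0
  simp only [eqToHom_refl, Category.id_comp] at h1 h2
  exact clSplit_of_tens fun z hz => tens_step h1 h2 hU hYd hcl' hor hz

/-- **The divisors with hard Lefschetz split.** -/
theorem div_tower [IsAlgClosed W.K] (hF : IndependentFamily χ F) {S : Finset J}
    (hS : ∀ B : Finset J, ∀ i, i ∉ (S : Set J) ∪ B → ¬ LinkedTo χ P F ((S : Set J) ∪ B) i)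
    {Z : GVar W Γ} (hZd : RespectsDegrees Z) (hZp : HasPoint Z)
    (hZ : EigenvaluesFrom χ P F S Z) (hcl : ∀ l Y, IsTower F Z l Y → RespectsCycles χ Y)
    {l : List (J × GVar W Γ)} {Y : GVar W Γ} (hY : IsTower F Z l Y) (hl : ∀ p ∈ l, p.1 ∉ S)
    (hK : KnownForAllButOne χ Z l) (c : W.H Y.X) (hc : (⟨Y, c⟩ : PVar W Γ).IsLefschetz) :
    ∃ (e : W.H Z.X) (l' : List (J × PVar W Γ)), (⟨Z, e⟩ : PVar W Γ).IsLefschetz ∧
      (∀ p ∈ l', p.2.IsLefschetz) ∧ forget l' = l ∧ IsSumTower F ⟨Z, e⟩ l' ⟨Y, c⟩ := by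
  induction hY with
  | base => exact ⟨c, [], hc, by simp, rfl, IsSumTower.base⟩
  | @step l Y Y' i X hT hi hX hP ih =>
    have hspl := clSplit_step hF hS hZd hZp hZ hcl hT hl hi hX hP hK
    obtain ⟨-, -, hYp⟩ := tower_props hF hZd hZ hT
    obtain ⟨YX, υ⟩ := Y'
    obtain ⟨h0, h1, h2⟩ := hP
    change YX = X.X.prod Y.X at h0
    subst h0
    obtain ⟨C, hCc, hC, hHL⟩ := isHard_iff.1 hc
    obtain ⟨D, E, hD, hE, hDE⟩ := div_split hspl hC
    have h3 := hl_left hD hE hDE hHL (one_ne_of_point (hYp hZp))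
    have h4 := hl_right hE hD hDE hHL (one_ne_of_point (hF.point i X hX))
    obtain ⟨e, l', he, hl', hf, hT'⟩ := ih (fun p hp => hl p (List.mem_cons_of_mem _ hp)) hK.tail
      (W.cl _ E) (isHard_iff.2 ⟨E, rfl, hE, h4⟩)
    refine ⟨e, (i, ⟨X, W.cl _ D⟩) :: l', he, ?_, ?_, ?_⟩
    · intro p hp
      rcases List.mem_cons.1 hp with rfl | hp
      · exact isHard_iff.2 ⟨D, rfl, hD, h3⟩
      · exact hl' p hp
    · rw [forget, List.map_cons]
      exact congrArg _ hf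
    · refine IsSumTower.step i ⟨X, W.cl _ D⟩ hT' ?_ hX ⟨⟨rfl, h1, h2⟩, rfl, ?_⟩
      · intro p hp
        exact hi (p.1, p.2.V) (hf ▸ List.mem_map.2 ⟨p, hp, rfl⟩)
      · rw [addPull]
        simp only [eqToHom_refl, Category.id_comp]
        rw [← hDE]
        exact hCc.symm

/-- **The conjecture A for towers.** -/
theorem lefA_tower [IsAlgClosed W.K] (hF : IndependentFamily χ F) {S : Finset J}
    (hS : ∀ B : Finset J, ∀ i, i ∉ (S : Set J) ∪ B → ¬ LinkedTo χ P F ((S : Set J) ∪ B) i)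
    {Z : PVar W Γ} (hZd : RespectsDegrees Z.V) (hZp : HasPoint Z.V)
    (hZ : EigenvaluesFrom χ P F S Z.V) (hcl : ∀ l Y, IsTower F Z.V l Y → RespectsCycles χ Y)
    {l : List (J × PVar W Γ)} {Y : PVar W Γ} (hY : IsSumTower F Z l Y) (hl : ∀ p ∈ l, p.1 ∉ S)
    (hK : KnownForAllButOne χ Z.V (forget l)) (hZL : Z.IsLefschetz)
    (hlL : ∀ p ∈ l, p.2.IsLefschetz) :
    Y.IsLefschetz ∧ (Y.ConjectureA ↔ Z.ConjectureA ∧ ∀ p ∈ l, p.2.ConjectureA) := by
  induction hY with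
  | base => exact ⟨hZL, by simp⟩
  | @step l Y Y' i X hT hi hX hP ih =>
    have hl' : ∀ p ∈ (i, X.V) :: forget l, p.1 ∉ S := by
      intro p hp
      rcases List.mem_cons.1 hp with rfl | hp
      · exact hl (i, X) List.mem_cons_self
      · obtain ⟨q, hq, rfl⟩ := List.mem_map.1 hp
        exact hl q (List.mem_cons_of_mem _ hq)
    have hi' : ∀ p ∈ forget l, p.1 ≠ i := by
      intro p hp
      obtain ⟨q, hq, rfl⟩ := List.mem_map.1 hp
      exact hi q hq
    obtain ⟨hYL, hYA⟩ := ih (fun p hp => hl p (List.mem_cons_of_mem _ hp)) hK.tail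
      (fun p hp => hlL p (List.mem_cons_of_mem _ hp))
    have hspl := clSplit_step hF hS hZd hZp hZ hcl hT.tower hl' hi' hX hP.1 hK
    obtain ⟨-, -, hYp⟩ := tower_props hF hZd hZ hT.tower
    have hXL := hlL (i, X) List.mem_cons_self
    have hgoal : Y'.IsLefschetz ∧ (Y'.ConjectureA ↔ Y.ConjectureA ∧ X.ConjectureA) := by
      obtain ⟨⟨YX, υ⟩, c⟩ := Y'
      obtain ⟨⟨h0, h1, h2⟩, h0', hc⟩ := hP
      change YX = X.V.X.prod Y.V.X at h0
      subst h0
      rw [addPull] at hc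
      simp only [eqToHom_refl, Category.id_comp] at hc
      obtain ⟨D, hDc, hD, hDL⟩ := isHard_iff.1 hXL
      obtain ⟨E, hEc, hE, hEL⟩ := isHard_iff.1 hYL
      have hC : W.cl (X.V.X.prod Y.V.X)
          (ops.pull (fst X.V.X Y.V.X) D + ops.pull (snd X.V.X Y.V.X) E) = c := by
        rw [map_add, W.cl_pull, W.cl_pull, hDc, hEc]
        exact hc.symm
      have h3 := lefA_step hspl hD hE hDL hEL (hF.point i X.V hX) (hYp hZp)
      rw [← lefElt_iff, ← lefElt_iff, ← lefElt_iff, hC, hDc, hEc] at h3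
      refine ⟨isHard_iff.2 ⟨_, hC, SmVar.IsCyc.add (ops.pull_mem _ hD) (ops.pull_mem _ hE),
        hardLefschetz_prod hD hE hDL hEL⟩, h3⟩
    refine ⟨hgoal.1, ?_⟩
    rw [hgoal.2, hYA, and_assoc]
    refine and_congr_right fun _ => ?_
    constructor
    · rintro ⟨h1, h2⟩ p hp
      rcases List.mem_cons.1 hp with rfl | hp
      · exact h2
      · exact h1 p hp
    · intro h
      exact ⟨fun p hp => h p (List.mem_cons_of_mem _ hp), h (i, X) List.mem_cons_self⟩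

end twr

end Pool.Agent.H621.AF
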