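import Pool.Agent.H621.AF.Geo

/-!
# The Tate conjecture for a product with an unlinked factor
-/

open CategoryTheory AlgebraicGeometry Finset Module

set_option linter.unusedSectionVars false

universe u

namespace Pool.Agent.H621.AF

open Pool.Agent.TH125.Gal
open Pool.Agent.H914 Pool.Agent.H914.VarClass Pool.Agent.H914.VarClass.Obj
  Pool.Agent.H914.WeilCohomology Pool.Agent.H281R3.HT Pool.Agent.W552

variable {k : Type u} [Field k] {𝒱 : VarClass k} {ops : CycleOps 𝒱}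
  {W : WeilCohomology.{u, 0} ops}

/-- The span of the Tate classes. -/
def tspan {K A : Type} [Field K] [Ring A] [Algebra K A] {Γ : Type} [Group Γ] (χ : Γ →* Kˣ)
    (gr : ℕ → Submodule K A) (ρ : Γ →* (A ≃ₐ[K] A)) : Submodule K A :=
  Submodule.span K {c | ∃ j, IsTateClass χ gr ρ j c}

/-- There is no nontrivial common constituent. -/
def Unlinked {K A B : Type} [Field K] [Ring A] [Algebra K A] [Ring B] [Algebra K B] {Γ : Type}
    [Group Γ] (χ : Γ →* Kˣ) (gr : ℕ → Submodule K A) (ρ : Γ →* (A ≃ₐ[K] A))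
    (τ : Γ →* (B ≃ₐ[K] B)) : Prop :=
  ∀ (Δ : Subgroup Γ) (P : Submodule K A), Δ.FiniteIndex → (∀ h ∈ Δ, ∀ a ∈ P, ρ h a ∈ P) →
    (∀ g ∈ Δ, ∀ x, IsEigenvalueOn ρ g P x → ∃ y, IsEigenvalueOn τ g ⊤ y ∧
      ∃ e : ℕ, x * y = χ g ^ e) → P ≤ tspan χ gr ρ

section act

variable {A Z : 𝒱.Obj} {Γ : Type} [Group Γ] {χ : Γ →* W.Kˣ}
  {ρ : Γ →* (W.H A ≃ₐ[W.K] W.H A)} {τ : Γ →* (W.H Z ≃ₐ[W.K] W.H Z)}
  {υ : Γ →* (W.H (A.prod Z) ≃ₐ[W.K] W.H (A.prod Z))}
  (h1 : ∀ g a, υ g (W.map (fst A Z) a) = W.map (fst A Z) (ρ g a))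
  (h2 : ∀ g z, υ g (W.map (snd A Z) z) = W.map (snd A Z) (τ g z))

theorem inv_act {B : Type} [Ring B] [Algebra W.K B] (τ : Γ →* (B ≃ₐ[W.K] B)) (g : Γ) (z : B) :
    τ g⁻¹ (τ g z) = z := by
  have h := congrArg (fun f : B ≃ₐ[W.K] B => f z) (map_mul τ g⁻¹ g)
  simp only [inv_mul_cancel, map_one] at h
  exact h.symm

include h1 h2

theorem ctr2_act (g : Γ) (ψ : W.H Z →ₗ[W.K] W.K) (c : W.H (A.prod Z)) :
    ρ g (ctr2 ψ c) = ctr2 (ψ ∘ₗ (τ g⁻¹).toLinearMap) (υ g c) := by
  refine kun_ext (L := fun c => ρ g (ctr2 ψ c))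
    (L' := fun c => ctr2 (ψ ∘ₗ (τ g⁻¹).toLinearMap) (υ g c)) ?_ ?_ ?_ c
  · intro a b
    rw [map_add, map_add]
  · intro a b
    rw [map_add, map_add]
  · intro a z
    beta_reduce
    rw [act_ext h1 h2, ctr2_apply, ctr2_apply, map_smul, LinearMap.comp_apply]
    congr 2
    exact (inv_act τ g z).symm

theorem ctr_act (g : Γ) (φ : W.H A →ₗ[W.K] W.K) (c : W.H (A.prod Z)) :
    τ g (ctr φ c) = ctr (φ ∘ₗ (ρ g⁻¹).toLinearMap) (υ g c) := by
  refine kun_ext (L := fun c => τ g (ctr φ c))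
    (L' := fun c => ctr (φ ∘ₗ (ρ g⁻¹).toLinearMap) (υ g c)) ?_ ?_ ?_ c
  · intro a b
    rw [map_add, map_add]
  · intro a b
    rw [map_add, map_add]
  · intro a z
    beta_reduce
    rw [act_ext h1 h2, ctr_apply, ctr_apply, map_smul, LinearMap.comp_apply]
    congr 2
    exact (inv_act ρ g a).symm

/-- The contractions of a Tate class are in the span of the Tate classes. -/
theorem ctr2_mem (hU : Unlinked χ (W.gr A) ρ τ) {j : ℕ} {t : W.H (A.prod Z)} {Δ : Subgroup Γ}
    (hΔ : Δ.FiniteIndex) (ht : ∀ g ∈ Δ, υ g t = (χ g : W.K) ^ j • t)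
    (ψ : W.H Z →ₗ[W.K] W.K) : ctr2 ψ t ∈ tspan χ (W.gr A) ρ := by
  let L : (W.H Z →ₗ[W.K] W.K) →ₗ[W.K] W.H A :=
    { toFun := fun ψ => ctr2 ψ t
      map_add' := fun ψ ψ' => ctr2_add ψ ψ' t
      map_smul' := fun x ψ => ctr2_smul x ψ t }
  have h3 : ∀ g ∈ Δ, ∀ ψ, ρ g (L ψ) =
      L ((χ g : W.K) ^ j • (ψ ∘ₗ (τ g⁻¹).toLinearMap)) := by
    intro g hg ψ
    change ρ g (ctr2 ψ t) = ctr2 _ t
    rw [ctr2_act h1 h2, ht g hg, map_smul, ctr2_smul]
  have h4 := hU Δ (LinearMap.range L) hΔ ?_ ?_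
  · exact h4 ⟨ψ, rfl⟩
  · rintro h hh _ ⟨ψ, rfl⟩
    rw [h3 h hh]
    exact ⟨_, rfl⟩
  · intro g hg x ⟨v, hv, hv0, hvx⟩
    let S : End W.K (W.H Z →ₗ[W.K] W.K) :=
      { toFun := fun ψ => (χ g : W.K) ^ j • (ψ ∘ₗ (τ g⁻¹).toLinearMap)
        map_add' := fun ψ ψ' => by rw [LinearMap.add_comp, smul_add]
        map_smul' := fun x ψ => by rw [LinearMap.smul_comp, smul_comm]; rfl }
    obtain ⟨φ, hφ0, hφ⟩ := eig_of_quotient (L := L) (R := (ρ g).toLinearMap) (S := S)
      (fun ψ => h3 g hg ψ) hv hv0 (x := (x : W.K)) hvx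
    have h5 : ∀ z, φ ((τ g).toLinearMap z) = ((χ g ^ j * x⁻¹ : W.Kˣ) : W.K) * φ z := by
      intro z
      have h6 := congrArg (fun f : W.H Z →ₗ[W.K] W.K => f (τ g z)) hφ
      have h7 : (χ g : W.K) ^ j * φ z = (x : W.K) * φ (τ g z) := by
        have h8 : φ ((τ g⁻¹) (τ g z)) = φ z := by rw [inv_act]
        rw [← h8]
        exact h6
      change φ (τ g z) = _
      rw [Units.val_mul, Units.val_pow_eq_pow_val, mul_right_comm, h7, mul_assoc, mul_comm,
        mul_assoc, Units.inv_mul, mul_one]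
    obtain ⟨z, hz0, hz⟩ := eig_of_dual hφ0 h5
    exact ⟨χ g ^ j * x⁻¹, ⟨z, trivial, hz0, hz⟩, j, by rw [mul_comm, inv_mul_cancel_right]⟩

/-- **The Tate conjecture for the product.** -/
theorem tate_prod (hU : Unlinked χ (W.gr A) ρ τ) (hτ : ∀ g i, ∀ a ∈ W.gr Z i, τ g a ∈ W.gr Z i)
    (hA : TateAct χ (W.gr A) (algClasses W A) ρ) (hZ : TateAct χ (W.gr Z) (algClasses W Z) τ) :
    TateAct χ (W.gr (A.prod Z)) (algClasses W (A.prod Z)) υ := by
  classical
  rintro j t htj ⟨Δ, hΔ, ht⟩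
  have hmem := ctr2_mem h1 h2 hU hΔ ht
  -- a basis of the span of the Tate classes
  obtain ⟨B, hBs, hBspan, hBli'⟩ := exists_linearIndependent W.K
    {c | ∃ j, IsTateClass χ (W.gr A) ρ j c}
  have hBli : LinearIndepOn W.K id B := hBli'
  let b := Basis.extend hBli
  have hbB : B ⊆ hBli.extend (Set.subset_univ B) := hBli.subset_extend _
  haveI : Finite (hBli.extend (Set.subset_univ B)) := Module.Finite.finite_basis b
  haveI := Fintype.ofFinite (hBli.extend (Set.subset_univ B))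
  haveI : Finite B := Finite.Set.subset _ hbB
  haveI := Fintype.ofFinite B
  have hb : ∀ r : hBli.extend (Set.subset_univ B), b r = (r : W.H A) :=
    fun r => Basis.extend_apply_self hBli r
  choose i hi using fun r : B => hBs r.2
  choose Δr hΔr hact using fun r : B => (hi r).2
  set q : hBli.extend (Set.subset_univ B) → W.H Z := fun r => ctr (b.coord r) t with hq
  have hexp : t = ∑ r, W.map (fst A Z) (b r) * W.map (snd A Z) (q r) := expand b t
  -- the coefficients outside of `B` vanish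
  have hq0 : ∀ r : hBli.extend (Set.subset_univ B), (r : W.H A) ∉ B → q r = 0 := by
    intro r hr
    let b' := Module.finBasis W.K (W.H Z)
    rw [hq]
    change ctr (b.coord r) t = 0
    rw [expand2 b' t, map_sum]
    refine Finset.sum_eq_zero fun s _ => ?_
    rw [ctr_apply]
    have h3 : b.coord r (ctr2 (b'.coord s) t) = 0 := by
      have h4 := hmem (b'.coord s)
      rw [tspan, ← hBspan] at h4
      have h5 : Submodule.span W.K B ≤ LinearMap.ker (b.coord r) := by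
        rw [Submodule.span_le]
        intro x hx
        have h6 : x = b ⟨x, hbB hx⟩ := (hb ⟨x, hbB hx⟩).symm
        rw [SetLike.mem_coe, LinearMap.mem_ker, h6, Basis.coord_apply, Basis.repr_self,
          Finsupp.single_eq_of_ne]
        intro h7
        exact hr (h7 ▸ hx)
      exact h5 h4
    rw [h3, zero_smul]
  -- semi-invariance
  let Δ' : Subgroup Γ := Δ ⊓ ⨅ r, Δr r
  have hΔ' : Δ'.FiniteIndex := by
    haveI := hΔ
    haveI : (⨅ r, Δr r).FiniteIndex := Subgroup.finiteIndex_iInf hΔr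
    infer_instance
  have hinv : ∀ g ∈ Δ', ∀ (r : hBli.extend (Set.subset_univ B)) (hr : (r : W.H A) ∈ B),
      (χ g : W.K) ^ i ⟨r, hr⟩ • τ g (q r) = (χ g : W.K) ^ j • q r := by
    intro g hg r hr
    have h3 : υ g t = ∑ r', W.map (fst A Z) (b r') * W.map (snd A Z)
        (if h : (r' : W.H A) ∈ B then (χ g : W.K) ^ i ⟨r', h⟩ • τ g (q r') else 0) := by
      conv_lhs => rw [hexp]
      rw [map_sum]
      refine Finset.sum_congr rfl fun r' _ => ?_
      rw [act_ext h1 h2]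
      by_cases h : (r' : W.H A) ∈ B
      · rw [dif_pos h]
        have h4 := hact ⟨r', h⟩ g ((Subgroup.mem_iInf.1 hg.2) _)
        rw [hb r']
        rw [show ρ g (r' : W.H A) = (χ g : W.K) ^ i ⟨r', h⟩ • (r' : W.H A) from h4, map_smul,
          map_smul, smul_mul_assoc, mul_smul_comm]
      · rw [dif_neg h, hq0 r' h, map_zero, map_zero, mul_zero, mul_zero]
    have h5 : ∀ s : hBli.extend (Set.subset_univ B) → W.H Z,
        ctr (b.coord r) (∑ r', W.map (fst A Z) (b r') * W.map (snd A Z) (s r')) = s r := by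
      intro s
      rw [map_sum, Finset.sum_eq_single r]
      · rw [ctr_apply, Basis.coord_apply, Basis.repr_self, Finsupp.single_eq_same, one_smul]
      · intro r' _ hr'
        rw [ctr_apply, Basis.coord_apply, Basis.repr_self,
          Finsupp.single_eq_of_ne (Ne.symm hr'), zero_smul]
      · intro h
        exact absurd (Finset.mem_univ _) h
    have h6 := h5 fun r' => if h : (r' : W.H A) ∈ B then
      (χ g : W.K) ^ i ⟨r', h⟩ • τ g (q r') else 0
    rw [← h3, ht g hg.1, map_smul, dif_pos hr] at h6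
    exact h6.symm
  -- projection to the degree
  have hproj : t = ∑ r, proj (W.isInternal (A.prod Z)) (2 * j)
      (W.map (fst A Z) (b r) * W.map (snd A Z) (q r)) := by
    rw [← map_sum, ← hexp, proj_same _ htj]
  refine algSpan_gr ?_ htj
  rw [hproj]
  refine Submodule.sum_mem _ fun r _ => ?_
  by_cases hr : (r : W.H A) ∈ B
  · have hgr : b r ∈ W.gr A (2 * i ⟨r, hr⟩) := by
      rw [hb r]
      exact (hi ⟨r, hr⟩).1
    rw [proj_ext hgr]
    by_cases hij : 2 * i ⟨r, hr⟩ ≤ 2 * j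
    · rw [if_pos hij]
      have e1 : 2 * j - 2 * i ⟨r, hr⟩ = 2 * (j - i ⟨r, hr⟩) := by omega
      rw [e1]
      refine algSpan_mul (algSpan_map _ ?_) (algSpan_map _ ?_)
      · have h3 := hA (i ⟨r, hr⟩) (b r) hgr ⟨Δr ⟨r, hr⟩, hΔr _, fun g hg => by
          rw [hb r]
          exact hact ⟨r, hr⟩ g hg⟩
        exact Submodule.span_mono (Set.subset_iUnion _ _) h3
      · have h3 := hZ (j - i ⟨r, hr⟩) (proj (W.isInternal Z) (2 * (j - i ⟨r, hr⟩)) (q r))
          (proj_mem _ _ _) ⟨Δ', hΔ', fun g hg => ?_⟩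
        · exact Submodule.span_mono (Set.subset_iUnion _ _) h3
        · have h4 := hinv g hg r hr
          have h5 : (χ g : W.K) ^ j = (χ g : W.K) ^ i ⟨r, hr⟩ *
              (χ g : W.K) ^ (j - i ⟨r, hr⟩) := by
            rw [← pow_add]
            congr 1
            omega
          rw [h5, mul_smul] at h4
          have h6 := smul_right_injective _ (pow_ne_zero _ (Units.ne_zero (χ g))) h4
          have h7 : ∀ z, τ g (proj (W.isInternal Z) (2 * (j - i ⟨r, hr⟩)) z) =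
              proj (W.isInternal Z) (2 * (j - i ⟨r, hr⟩)) (τ g z) := by
            intro z
            refine gr_induction (W.isInternal Z) (p := fun z =>
              τ g (proj (W.isInternal Z) (2 * (j - i ⟨r, hr⟩)) z) =
              proj (W.isInternal Z) (2 * (j - i ⟨r, hr⟩)) (τ g z)) ?_ ?_ z
            · intro l a ha
              by_cases hl : l = 2 * (j - i ⟨r, hr⟩)
              · subst hl
                rw [proj_same _ ha, proj_same _ (hτ g _ a ha)]
              · rw [proj_ne _ ha hl, proj_ne _ (hτ g _ a ha) hl, map_zero]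
            · intro a a' ha ha'
              rw [map_add, map_add, map_add, map_add, ha, ha']
          rw [h7, h6, map_smul]
    · rw [if_neg hij]
      exact Submodule.zero_mem _
  · rw [hq0 r hr, map_zero, mul_zero, map_zero]
    exact Submodule.zero_mem _

omit h1 in
/-- The Tate conjecture for the product implies it for the factor. -/
theorem tate_factor (hpt : ∃ a ∈ algClasses W A A.dim, W.tr A a ≠ 0)
    (hT : TateAct χ (W.gr (A.prod Z)) (algClasses W (A.prod Z)) υ) :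
    TateAct χ (W.gr Z) (algClasses W Z) τ := by
  intro j c hcj ⟨Δ, hΔ, hc⟩
  have h3 := hT j (W.map (snd A Z) c) (W.map_mem _ hcj) ⟨Δ, hΔ, fun g hg => by
    rw [h2, hc g hg, map_smul]⟩
  obtain ⟨a, ha, ha0⟩ := hpt
  have h4 : W.push (snd A Z) (W.map (fst A Z) a * W.map (snd A Z) c) ∈ algSpan W Z :=
    algSpan_push _ (algSpan_mul (algSpan_map _ (alg_mem ha))
      (Submodule.span_mono (Set.subset_iUnion _ j) h3))
  rw [W.push_snd] at h4
  have h5 := Submodule.smul_mem _ (W.tr A a)⁻¹ h4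
  rw [smul_smul, inv_mul_cancel₀ ha0, one_smul] at h5
  exact algSpan_gr h5 hcj

omit h2 in
/-- The Tate conjecture for the product implies it for the first factor. -/
theorem tate_factor1 (hpt : ∃ a ∈ algClasses W Z Z.dim, W.tr Z a ≠ 0)
    (hT : TateAct χ (W.gr (A.prod Z)) (algClasses W (A.prod Z)) υ) :
    TateAct χ (W.gr A) (algClasses W A) ρ := by
  intro j c hcj ⟨Δ, hΔ, hc⟩
  have h3 := hT j (W.map (fst A Z) c) (W.map_mem _ hcj) ⟨Δ, hΔ, fun g hg => by
    rw [h1, hc g hg, map_smul]⟩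
  obtain ⟨a, ha, ha0⟩ := hpt
  have h4 : W.push (fst A Z) (W.map (fst A Z) c * W.map (snd A Z) a) ∈ algSpan W A :=
    algSpan_push _ (algSpan_mul (Submodule.span_mono (Set.subset_iUnion _ j) h3)
      (algSpan_map _ (alg_mem ha)))
  rw [push_fst _ (alg_gr ha)] at h4
  have h5 := Submodule.smul_mem _ (W.tr Z a)⁻¹ h4
  rw [smul_smul, inv_mul_cancel₀ ha0, one_smul] at h5
  exact algSpan_gr h5 hcj

end act

theorem point_prod {A Z : 𝒱.Obj} (hA : ∃ a ∈ algClasses W A A.dim, W.tr A a ≠ 0)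
    (hZ : ∃ a ∈ algClasses W Z Z.dim, W.tr Z a ≠ 0) :
    ∃ a ∈ algClasses W (A.prod Z) (A.prod Z).dim, W.tr (A.prod Z) a ≠ 0 := by
  obtain ⟨a, ha, ha0⟩ := hA
  obtain ⟨b, hb, hb0⟩ := hZ
  refine ⟨W.map (fst A Z) a * W.map (snd A Z) b, ?_, ?_⟩
  · rw [dim_prod]
    exact alg_mul (alg_map _ ha) (alg_map _ hb)
  · rw [W.tr_prod]
    exact mul_ne_zero ha0 hb0

end Pool.Agent.H621.AF
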