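import Pool.Agent.H621.AF.Defs
import Pool.Agent.TH125.Gal.Pub

/-!
# Independent families of varieties and products: definitions
-/

open CategoryTheory AlgebraicGeometry

universe u

namespace Pool.Agent.H621.AF

open Pool.Agent.TH125.Gal
open Pool.Agent.H914 Pool.Agent.H914.VarClass Pool.Agent.H914.VarClass.Obj

variable {k : Type u} [Field k] {𝒱 : VarClass k} {ops : CycleOps 𝒱}
  {W : WeilCohomology.{u, 0} ops} {Γ : Type} [Group Γ]

/-- The group acts through automorphisms of the graded algebra. -/
def RespectsDegrees (X : GVar W Γ) : Prop := IsGradedAct (W.gr X.X) X.act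

/-- The variety `X` has a zero-cycle whose degree is not zero. -/
def HasPoint (X : GVar W Γ) : Prop := IsNonzeroOn (W.tr X.X) (algClasses W X.X X.X.dim)

/-- The eigenvalues of `g` on the cohomology of the varieties in `F`. -/
def eigenvalues (F : Set (GVar W Γ)) (g : Γ) : Set W.Kˣ :=
  {x | ∃ X ∈ F, IsEigenvalue X.act g x}

/-- The element `g` is generic for all varieties in `F`. -/
def GenericFor (χ : Γ →* W.Kˣ) (F : Set (GVar W Γ)) (g : Γ) : Prop :=
  ∀ X ∈ F, IsGeneric χ (W.gr X.X) X.act g

/-- An independent family of sets `F i` of varieties: for every finite part of the family there is an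
element `g` of the group which is generic for the varieties and whose eigenvalues for different `i` are
independent. -/
structure IndependentFamily (χ : Γ →* W.Kˣ) {J : Type} (F : J → Set (GVar W Γ)) : Prop where
  degrees : ∀ i, ∀ X ∈ F i, RespectsDegrees X
  point : ∀ i, ∀ X ∈ F i, HasPoint X
  generic : ∀ A : Finset J, ∃ g, (∀ i ∈ A, GenericFor χ (F i) g) ∧
    IndependentModulo (χ g) (fun i => eigenvalues (F i) g) A

/-- For all elements `g` of the group the eigenvalues of `g` on the cohomology of `Z` are in the group
generated by `χ g`, by the eigenvalues of `g` on the representation `P` and by the eigenvalues of `g` on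
the cohomology of the varieties in `F i`, `i ∈ S`. -/
def EigenvaluesFrom (χ : Γ →* W.Kˣ) (P : FinRep W.K Γ) {J : Type} (F : J → Set (GVar W Γ))
    (S : Set J) (Z : GVar W Γ) : Prop :=
  ∀ g x, IsEigenvalue Z.act g x →
    IsGenerated (χ g) (P.eigenvalues g) (fun i => eigenvalues (F i) g) S x

/-- `Y` is the product of `X` and `Z`, with an action which is compatible with the projections. -/
def IsProduct (X Z Y : GVar W Γ) : Prop :=
  ∃ h : Y.X = X.X.prod Z.X, Intertwines (W.map (eqToHom h ≫ fst X.X Z.X)) X.act Y.act ∧
    Intertwines (W.map (eqToHom h ≫ snd X.X Z.X)) Z.act Y.act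

/-- `Y = X_1 × (X_2 × ( ⋯ × Z))`, where the list is `[(i_1, X_1), (i_2, X_2), …]`, the indices `i_r`
are pairwise different, and `X_r` is a member of the set `F i_r`. -/
inductive IsTower {J : Type} (F : J → Set (GVar W Γ)) (Z : GVar W Γ) :
    List (J × GVar W Γ) → GVar W Γ → Prop
  | base : IsTower F Z [] Z
  | step {l Y Y'} (i : J) (X : GVar W Γ) : IsTower F Z l Y → (∀ p ∈ l, p.1 ≠ i) → X ∈ F i →
      IsProduct X Y Y' → IsTower F Z ((i, X) :: l) Y'

end Pool.Agent.H621.AF
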