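import Pool.Agent.H621.AF.Mod
import Pool.Agent.H621.AF.Dec
import Pool.Agent.H621.AF.Pub

/-!
# The number of the linked members of an independent family
-/

open CategoryTheory AlgebraicGeometry Finset Module

set_option linter.unusedSectionVars false

universe u

namespace Pool.Agent.H621.AF

open Pool.Agent.TH125.Gal
open Pool.Agent.H914 Pool.Agent.H914.VarClass Pool.Agent.H914.VarClass.Obj
  Pool.Agent.H914.WeilCohomology

variable {k : Type u} [Field k] {𝒱 : VarClass k} {ops : CycleOps 𝒱}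
  {W : WeilCohomology.{u, 0} ops} {Γ : Type} [Group Γ] {χ : Γ →* W.Kˣ}
  {P : FinRep W.K Γ} {J : Type} {F : J → Set (GVar W Γ)}

/-- `F i` is linked to the varieties over `S`. -/
def LinkedTo (χ : Γ →* W.Kˣ) (P : FinRep W.K Γ) (F : J → Set (GVar W Γ)) (S : Set J)
    (i : J) : Prop :=
  ∃ X ∈ F i, ∃ Y, EigenvaluesFrom χ P F S Y ∧ ¬ Unlinked χ (W.gr X.X) X.act Y.act

/-- Chains with `m` linked steps. -/
inductive Chain (χ : Γ →* W.Kˣ) (P : FinRep W.K Γ) (F : J → Set (GVar W Γ)) :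
    Set J → ℕ → Prop
  | nil : Chain χ P F ∅ 0
  | skip {S m} (i : J) : Chain χ P F S m → i ∉ S → Chain χ P F (insert i S) m
  | link {S m} (i : J) : Chain χ P F S m → i ∉ S → LinkedTo χ P F S i →
      Chain χ P F (insert i S) (m + 1)

theorem Chain.finite {S : Set J} {m : ℕ} (h : Chain χ P F S m) : S.Finite := by
  induction h with
  | nil => exact Set.finite_empty
  | skip i _ _ ih => exact ih.insert i
  | link i _ _ _ ih => exact ih.insert i

/-- The classes of the eigenvalues of a power. -/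
theorem spn_eigs [IsAlgClosed W.K] {g : Γ} {m : ℕ} (hm : 0 < m) {c : W.Kˣ} :
    spn c (P.eigenvalues (g ^ m)) ≤ spn c (P.eigenvalues g) := by
  refine Submodule.span_le.2 ?_
  rintro _ ⟨x, ⟨v, hv, hx⟩, rfl⟩
  have h1 : ((P.ρ g) ^ m) v = (x : W.K) • v := by
    rw [← map_pow]
    exact hx
  obtain ⟨y, hy, rfl⟩ := eig_root hm ⟨v, hv, h1⟩
  rw [cls_pow]
  exact Submodule.smul_mem _ _ (Submodule.subset_span ⟨y, hy, rfl⟩)

theorem pow_linear {A : 𝒱.Obj} (τ : Γ →* (W.H A ≃ₐ[W.K] W.H A)) (g : Γ) (m : ℕ) :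
    (τ (g ^ m)).toLinearMap = (τ g).toLinearMap ^ m := by
  induction m with
  | zero =>
    rw [pow_zero, pow_zero, map_one]
    rfl
  | succ n ih =>
    rw [pow_succ, pow_succ, map_mul, ← ih]
    rfl

theorem eig_root_alg [IsAlgClosed W.K] {A : 𝒱.Obj} {τ : Γ →* (W.H A ≃ₐ[W.K] W.H A)} {g : Γ}
    {m : ℕ} (hm : 0 < m) {x : W.Kˣ} (hx : IsEigenvalueOn τ (g ^ m) ⊤ x) :
    ∃ y, IsEigenvalueOn τ g ⊤ y ∧ y ^ m = x := by
  obtain ⟨v, -, hv, hx⟩ := hx
  have h1 : ((τ g).toLinearMap ^ m) v = (x : W.K) • v := by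
    rw [← pow_linear]
    exact hx
  obtain ⟨y, ⟨w, hw, hy⟩, hyx⟩ := eig_root hm ⟨v, hv, h1⟩
  exact ⟨y, ⟨w, trivial, hw, hy⟩, hyx⟩

theorem spn_eigenvalues [IsAlgClosed W.K] {G : Set (GVar W Γ)} {g : Γ} {m : ℕ} (hm : 0 < m)
    {c : W.Kˣ} : spn c (eigenvalues G (g ^ m)) ≤ spn c (eigenvalues G g) := by
  refine Submodule.span_le.2 ?_
  rintro _ ⟨x, ⟨X, hX, hx⟩, rfl⟩
  obtain ⟨y, hy, rfl⟩ := eig_root_alg hm hx
  rw [cls_pow]
  exact Submodule.smul_mem _ _ (Submodule.subset_span ⟨y, ⟨X, hX, hy⟩, rfl⟩)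

/-- The number of the linked steps is bounded. -/
theorem Chain.indep [IsAlgClosed W.K] {S : Set J} {m : ℕ} (h : Chain χ P F S m) {A : Finset J}
    (hSA : S ⊆ A) {g : Γ} (hg : ∀ i ∈ A, GenericFor χ (F i) g)
    (hA : IndependentModulo (χ g) (fun i => eigenvalues (F i) g) A) :
    ∃ z : Fin m → Mq (χ g), LinearIndependent ℤ z ∧ (∀ l, z l ∈ spn (χ g) (P.eigenvalues g)) ∧
      ∀ l, z l ∈ ⨆ i ∈ S, spn (χ g) (eigenvalues (F i) g) := by
  classical
  induction h with
  | nil => exact ⟨Fin.elim0, linearIndependent_empty_type, fun l => l.elim0, fun l => l.elim0⟩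
  | @skip S m i _ _ ih =>
    obtain ⟨z, h1, h2, h3⟩ := ih fun j hj => hSA (Set.mem_insert_of_mem _ hj)
    have hle : (⨆ j ∈ S, spn (χ g) (eigenvalues (F j) g)) ≤
        ⨆ j ∈ insert i S, spn (χ g) (eigenvalues (F j) g) :=
      biSup_mono fun j hj => Set.mem_insert_of_mem _ hj
    exact ⟨z, h1, h2, fun l => hle (h3 l)⟩
  | @link S m i hc hi hlink ih =>
    obtain ⟨z, h1, h2, h3⟩ := ih fun j hj => hSA (Set.mem_insert_of_mem _ hj)
    obtain ⟨X, hX, Y, hY, hU⟩ := hlink
    rw [Unlinked] at hU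
    push Not at hU
    obtain ⟨Δ, Q, hΔ, hP, hlk, hPT⟩ := hU
    -- a power of `g`
    obtain ⟨n, hn, hn', hgn⟩ := Subgroup.exists_pow_mem_of_index_ne_zero hΔ.index_ne_zero g
    -- an eigenvalue
    have h4 : ∃ x, IsEigenvalueOn X.act (g ^ n) Q x ∧ ¬ Near (χ g) x := by
      by_contra hcon
      push Not at hcon
      exact hPT (hg i (hSA (Set.mem_insert _ _)) X hX Δ Q n hΔ hP hn hgn hcon)
    obtain ⟨x, hx, hxn⟩ := h4
    obtain ⟨y, hy, e, hxy⟩ := hlk _ hgn x hx
    have hy' := hY _ _ hy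
    have hcc : cls (χ g) (χ (g ^ n)) = 0 := by rw [map_pow, cls_pow, cls_self, smul_zero]
    have hy2 := cls_mem_sup hcc hy'
    have hy3 : cls (χ g) y ∈ spn (χ g) (P.eigenvalues g) ⊔
        ⨆ j ∈ S, spn (χ g) (eigenvalues (F j) g) := by
      refine sup_le_sup (spn_eigs hn) (iSup₂_mono fun j _ => spn_eigenvalues hn) hy2
    obtain ⟨w, hw, w', hw', hww⟩ := Submodule.mem_sup.1 hy3
    have hxy' : cls (χ g) x + cls (χ g) y = 0 := by
      rw [← cls_mul, hxy, cls_pow, hcc, smul_zero]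
    -- `w + x = - w'`
    have hx1 : cls (χ g) x ∈ spn (χ g) (eigenvalues (F i) g) := by
      obtain ⟨a, -, ha0, ha⟩ := hx
      exact spn_eigenvalues hn (Submodule.subset_span ⟨x, ⟨X, hX, a, trivial, ha0, ha⟩, rfl⟩)
    have hwx : w + cls (χ g) x = - w' := by
      rw [eq_neg_iff_add_eq_zero, ← hxy', ← hww]
      abel
    have hfin : S.Finite := hc.finite
    have hdis : Disjoint (spn (χ g) (eigenvalues (F i) g))
        (⨆ j ∈ S, spn (χ g) (eigenvalues (F j) g)) := by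
      have h5 := disjoint_of_indep (B := hfin.toFinset) (i := i) hA
        (by rwa [Set.Finite.mem_toFinset]) (by
          intro j hj
          rw [Finset.mem_insert, Set.Finite.mem_toFinset] at hj
          exact hSA hj)
      rwa [Set.Finite.coe_toFinset] at h5
    refine ⟨Fin.snoc z w, indep_step h1 hdis h3 hx1
      (fun h => hxn (cls_eq_zero.1 h)) (hwx ▸ Submodule.neg_mem _ hw'), ?_, ?_⟩
    · intro l
      refine Fin.lastCases ?_ (fun l => ?_) l
      · rw [Fin.snoc_last]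
        exact hw
      · rw [Fin.snoc_castSucc]
        exact h2 l
    · have hle : (⨆ j ∈ S, spn (χ g) (eigenvalues (F j) g)) ≤
          ⨆ j ∈ insert i S, spn (χ g) (eigenvalues (F j) g) :=
        biSup_mono fun j hj => Set.mem_insert_of_mem _ hj
      intro l
      refine Fin.lastCases ?_ (fun l => ?_) l
      · rw [Fin.snoc_last]
        have h6 : w = - w' - cls (χ g) x := by rw [← hwx]; abel
        rw [h6]
        refine Submodule.sub_mem _ (Submodule.neg_mem _ (hle hw')) ?_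
        exact Submodule.mem_iSup_of_mem i (Submodule.mem_iSup_of_mem (Set.mem_insert _ _) hx1)
      · rw [Fin.snoc_castSucc]
        exact hle (h3 l)

theorem Chain.le [IsAlgClosed W.K] (hF : IndependentFamily χ F) {S : Set J} {m : ℕ}
    (h : Chain χ P F S m) : m ≤ finrank W.K P.V := by
  obtain ⟨g, hg, hA⟩ := hF.generic h.finite.toFinset
  obtain ⟨z, h1, h2, -⟩ := h.indep (by rw [Set.Finite.coe_toFinset]) hg hA
  obtain ⟨hfin, hcard⟩ := card_eig (P.ρ g)
  have hfin' : (cls (χ g) '' P.eigenvalues g).Finite := hfin.image _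
  haveI := hfin'.fintype
  have h3 := linearIndependent_le_span' z h1 (cls (χ g) '' P.eigenvalues g)
    (by rintro _ ⟨l, rfl⟩; exact h2 l)
  rw [Cardinal.mk_fin, Nat.cast_le, ← Nat.card_eq_fintype_card] at h3
  exact h3.trans ((Set.ncard_image_le hfin).trans hcard)

theorem Chain.extend {S : Set J} {m : ℕ} (h : Chain χ P F S m) (B : Finset J) :
    Chain χ P F (S ∪ B) m := by
  classical
  induction B using Finset.induction_on with
  | empty => simpa using h
  | insert i B _ ih =>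
    have h1 : S ∪ ((insert i B : Finset J) : Set J) = insert i (S ∪ B) := by
      rw [Finset.coe_insert, Set.union_insert]
    rw [h1]
    by_cases hi : i ∈ S ∪ (B : Set J)
    · rwa [Set.insert_eq_of_mem hi]
    · exact Chain.skip i ih hi

/-- **The exceptional set.** -/
theorem exists_exceptional [IsAlgClosed W.K] (hF : IndependentFamily χ F)
    (P : FinRep W.K Γ) :
    ∃ S : Finset J, ∀ B : Finset J, ∀ i, i ∉ (S : Set J) ∪ B →
      ¬ LinkedTo χ P F ((S : Set J) ∪ B) i := by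
  classical
  let M : Set ℕ := {m | ∃ S, Chain χ P F S m}
  have hM : M.Finite := (Set.finite_Iic (finrank W.K P.V)).subset fun m hm => by
    obtain ⟨S, hS⟩ := hm
    exact hS.le hF
  obtain ⟨m, ⟨S, hS⟩, hmax⟩ := Set.exists_max_image M id hM ⟨0, ∅, Chain.nil⟩
  refine ⟨hS.finite.toFinset, fun B i hi hlink => ?_⟩
  rw [Set.Finite.coe_toFinset] at hi hlink
  have h1 := hmax (m + 1) ⟨_, Chain.link i (hS.extend B) hi hlink⟩
  simp at h1

end Pool.Agent.H621.AF
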