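import Pool.Agent.H621.AF.Pub

/-!
# Cycle classes and the conjecture D: definitions
-/

open CategoryTheory AlgebraicGeometry

universe u

namespace Pool.Agent.H621.AF

section alg

variable {K A : Type} [Field K] [Ring A] [Algebra K A] {Γ : Type} [Group Γ]

/-- Every element `c` of `C j` is multiplied by `χ g ^ j` by all `g` in a subgroup of finite
index. -/
def IsFixedUpToTwist (χ : Γ →* Kˣ) (C : ℕ → Set A) (ρ : Γ →* (A ≃ₐ[K] A)) : Prop :=
  ∀ j, ∀ c ∈ C j, ∃ Δ : Subgroup Γ, Δ.FiniteIndex ∧ ∀ g ∈ Δ, ρ g c = (χ g : K) ^ j • c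

/-- Every element of `C j` which is orthogonal to `C (n - j)` is `0`, for `j ≤ n`. -/
def NumEqHom (tr : A →ₗ[K] K) (C : ℕ → Set A) (n : ℕ) : Prop :=
  ∀ j ≤ n, ∀ c ∈ C j, (∀ e ∈ C (n - j), tr (c * e) = 0) → c = 0

/-- The element `f a * g b`. -/
def mulPull {A' B' : Type} [Ring A'] [Algebra K A'] [Ring B'] [Algebra K B'] (f : A' →ₐ[K] A)
    (g : B' →ₐ[K] A) (a : A') (b : B') : A := f a * g b

end alg

open Pool.Agent.TH125.Gal
open Pool.Agent.H914 Pool.Agent.H914.VarClass Pool.Agent.H914.VarClass.Obj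

variable {k : Type u} [Field k] {𝒱 : VarClass k} {ops : CycleOps 𝒱}
  {W : WeilCohomology.{u, 0} ops} {Γ : Type} [Group Γ]

/-- The classes of the algebraic cycles of codimension `j` on `X` are multiplied by `χ ^ j` by
subgroups of finite index. -/
def RespectsCycles (χ : Γ →* W.Kˣ) (X : GVar W Γ) : Prop :=
  IsFixedUpToTwist χ (algClasses W X.X) X.act

/-- Numerical and homological equivalence coincide on `X`. -/
def ConjectureD (X : GVar W Γ) : Prop := NumEqHom (W.tr X.X) (algClasses W X.X) X.X.dim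

/-- The Tate conjecture holds for all `X_r` in the list `l = [(i_1, X_1), (i_2, X_2), …]`, or it holds
for `Z` and for all `X_r` except those with one index `i`. -/
def TateForAllButOne (χ : Γ →* W.Kˣ) {J : Type} (Z : GVar W Γ) (l : List (J × GVar W Γ)) : Prop :=
  (∀ p ∈ l, TateConjecture χ p.2) ∨
    TateConjecture χ Z ∧ ∃ i, ∀ p ∈ l, p.1 ≠ i → TateConjecture χ p.2

/-- The product of the pull-backs of the classes `a` and `c` on `Y' = X × Y`. -/
noncomputable def cross {X Y Y' : 𝒱.Obj} (h : Y' = X.prod Y) (a : W.H X) (c : W.H Y) : W.H Y' :=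
  mulPull (W.map (eqToHom h ≫ fst X Y)) (W.map (eqToHom h ≫ snd X Y)) a c

/-- The products of classes of algebraic cycles on the factors of `Y = X_1 × (X_2 × ( ⋯ × Z))`, where the
list is `[(i_1, X_1), (i_2, X_2), …]`. -/
inductive IsProductClass {J : Type} (Z : GVar W Γ) :
    List (J × GVar W Γ) → (Y : GVar W Γ) → W.H Y.X → Prop
  | base (j : ℕ) (c : W.H Z.X) : c ∈ algClasses W Z.X j → IsProductClass Z [] Z c
  | step {l Y Y' c} (i : J) (X : GVar W Γ) (j : ℕ) (a : W.H X.X) (h : Y'.X = X.X.prod Y.X) :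
      IsProductClass Z l Y c → a ∈ algClasses W X.X j →
      IsProductClass Z ((i, X) :: l) Y' (cross h a c)

/-- The class of every algebraic cycle on `Y` is a sum of products of classes of algebraic cycles on the
factors. -/
def CyclesSplit {J : Type} (Z : GVar W Γ) (l : List (J × GVar W Γ)) (Y : GVar W Γ) : Prop :=
  ∀ j, ∀ c ∈ algClasses W Y.X j, c ∈ AddSubmonoid.closure {c | IsProductClass Z l Y c}

end Pool.Agent.H621.AF
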