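import Pool.Agent.H621.AF.Twr
import Pool.Agent.H621.AF.Pub2
import Pool.Agent.TH125.Gal.Lef
import Pool.Agent.TH132.A.Num

/-!
# The algebraic classes on a product with an unlinked factor
-/

open CategoryTheory AlgebraicGeometry Finset Module

set_option linter.unusedSectionVars false

universe u

namespace Pool.Agent.H621.AF

open Pool.Agent.TH125.Gal
open Pool.Agent.H914 Pool.Agent.H914.VarClass Pool.Agent.H914.VarClass.Obj
  Pool.Agent.H914.WeilCohomology Pool.Agent.H281R3.HT Pool.Agent.W552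

variable {k : Type u} [Field k] {𝒱 : VarClass k} {ops : CycleOps 𝒱}
  {W : WeilCohomology.{u, 0} ops}

section act

variable {A Z : 𝒱.Obj} {Γ : Type} [Group Γ] {χ : Γ →* W.Kˣ}
  {ρ : Γ →* (W.H A ≃ₐ[W.K] W.H A)} {τ : Γ →* (W.H Z ≃ₐ[W.K] W.H Z)}
  {υ : Γ →* (W.H (A.prod Z) ≃ₐ[W.K] W.H (A.prod Z))}
  (h1 : ∀ g a, υ g (W.map (fst A Z) a) = W.map (fst A Z) (ρ g a))
  (h2 : ∀ g z, υ g (W.map (snd A Z) z) = W.map (snd A Z) (τ g z))

include h1 h2

/-- The Tate classes on the product are combinations of products of Tate classes. -/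
theorem tate_span (hU : Unlinked χ (W.gr A) ρ τ) (hτ : ∀ g i, ∀ a ∈ W.gr Z i, τ g a ∈ W.gr Z i)
    {j : ℕ} {t : W.H (A.prod Z)} (htj : t ∈ W.gr (A.prod Z) (2 * j)) {Δ : Subgroup Γ}
    (hΔ : Δ.FiniteIndex) (ht : ∀ g ∈ Δ, υ g t = (χ g : W.K) ^ j • t) :
    t ∈ Submodule.span W.K {c | ∃ i i' x y, IsTateClass χ (W.gr A) ρ i x ∧
      IsTateClass χ (W.gr Z) τ i' y ∧ c = W.map (fst A Z) x * W.map (snd A Z) y} := by
  classical
  have hmem := ctr2_mem h1 h2 hU hΔ ht
  -- a basis of the span of the Tate classes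
  obtain ⟨B, hBs, hBspan, hBli'⟩ := exists_linearIndependent W.K
    {c | ∃ j, IsTateClass χ (W.gr A) ρ j c}
  have hBli : LinearIndepOn W.K id B := hBli'
  let b := Basis.extend hBli
  have hbB : B ⊆ hBli.extend (Set.subset_univ B) := hBli.subset_extend _
  have : Finite (hBli.extend (Set.subset_univ B)) := Module.Finite.finite_basis b
  have := Fintype.ofFinite (hBli.extend (Set.subset_univ B))
  have : Finite B := Finite.Set.subset _ hbB
  have := Fintype.ofFinite B
  have hb : ∀ r : hBli.extend (Set.subset_univ B), b r = (r : W.H A) :=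
    fun r => Basis.extend_apply_self hBli r
  choose i hi using fun r : B => hBs r.2
  choose Δr hΔr hact using fun r : B => (hi r).2
  set q : hBli.extend (Set.subset_univ B) → W.H Z := fun r => ctr (b.coord r) t with hq
  have hexp : t = ∑ r, W.map (fst A Z) (b r) * W.map (snd A Z) (q r) := expand b t
  -- the coefficients outside of `B` vanish
  have hq0 : ∀ r : hBli.extend (Set.subset_univ B), (r : W.H A) ∉ B → q r = 0 := by
    intro r hr
    let b' := Module.finBasis W.K (W.H Z)
    rw [hq]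
    change ctr (b.coord r) t = 0
    rw [expand2 b' t, map_sum]
    refine Finset.sum_eq_zero fun s _ => ?_
    rw [ctr_apply]
    have h3 : b.coord r (ctr2 (b'.coord s) t) = 0 := by
      have h4 := hmem (b'.coord s)
      rw [tspan, ← hBspan] at h4
      have h5 : Submodule.span W.K B ≤ LinearMap.ker (b.coord r) := by
        rw [Submodule.span_le]
        intro x hx
        have h6 : x = b ⟨x, hbB hx⟩ := (hb ⟨x, hbB hx⟩).symm
        rw [SetLike.mem_coe, LinearMap.mem_ker, h6, Basis.coord_apply, Basis.repr_self,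
          Finsupp.single_eq_of_ne]
        intro h7
        exact hr (h7 ▸ hx)
      exact h5 h4
    rw [h3, zero_smul]
  -- semi-invariance
  let Δ' : Subgroup Γ := Δ ⊓ ⨅ r, Δr r
  have hΔ' : Δ'.FiniteIndex := by
    have := hΔ
    have : (⨅ r, Δr r).FiniteIndex := Subgroup.finiteIndex_iInf hΔr
    infer_instance
  have hinv : ∀ g ∈ Δ', ∀ (r : hBli.extend (Set.subset_univ B)) (hr : (r : W.H A) ∈ B),
      (χ g : W.K) ^ i ⟨r, hr⟩ • τ g (q r) = (χ g : W.K) ^ j • q r := by
    intro g hg r hr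
    have h3 : υ g t = ∑ r', W.map (fst A Z) (b r') * W.map (snd A Z)
        (if h : (r' : W.H A) ∈ B then (χ g : W.K) ^ i ⟨r', h⟩ • τ g (q r') else 0) := by
      conv_lhs => rw [hexp]
      rw [map_sum]
      refine Finset.sum_congr rfl fun r' _ => ?_
      rw [act_ext h1 h2]
      by_cases h : (r' : W.H A) ∈ B
      · rw [dif_pos h]
        have h4 := hact ⟨r', h⟩ g ((Subgroup.mem_iInf.1 hg.2) _)
        rw [hb r']
        rw [show ρ g (r' : W.H A) = (χ g : W.K) ^ i ⟨r', h⟩ • (r' : W.H A) from h4, map_smul,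
          map_smul, smul_mul_assoc, mul_smul_comm]
      · rw [dif_neg h, hq0 r' h, map_zero, map_zero, mul_zero, mul_zero]
    have h5 : ∀ s : hBli.extend (Set.subset_univ B) → W.H Z,
        ctr (b.coord r) (∑ r', W.map (fst A Z) (b r') * W.map (snd A Z) (s r')) = s r := by
      intro s
      rw [map_sum, Finset.sum_eq_single r]
      · rw [ctr_apply, Basis.coord_apply, Basis.repr_self, Finsupp.single_eq_same, one_smul]
      · intro r' _ hr'
        rw [ctr_apply, Basis.coord_apply, Basis.repr_self,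
          Finsupp.single_eq_of_ne (Ne.symm hr'), zero_smul]
      · intro h
        exact absurd (Finset.mem_univ _) h
    have h6 := h5 fun r' => if h : (r' : W.H A) ∈ B then
      (χ g : W.K) ^ i ⟨r', h⟩ • τ g (q r') else 0
    rw [← h3, ht g hg.1, map_smul, dif_pos hr] at h6
    exact h6.symm
  -- projection to the degree
  have hproj : t = ∑ r, proj (W.isInternal (A.prod Z)) (2 * j)
      (W.map (fst A Z) (b r) * W.map (snd A Z) (q r)) := by
    rw [← map_sum, ← hexp, proj_same _ htj]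
  rw [hproj]
  refine Submodule.sum_mem _ fun r _ => ?_
  by_cases hr : (r : W.H A) ∈ B
  · have hgr : b r ∈ W.gr A (2 * i ⟨r, hr⟩) := by
      rw [hb r]
      exact (hi ⟨r, hr⟩).1
    rw [proj_ext hgr]
    by_cases hij : 2 * i ⟨r, hr⟩ ≤ 2 * j
    · rw [if_pos hij]
      have e1 : 2 * j - 2 * i ⟨r, hr⟩ = 2 * (j - i ⟨r, hr⟩) := by omega
      rw [e1]
      refine Submodule.subset_span ⟨i ⟨r, hr⟩, j - i ⟨r, hr⟩, b r, _, ?_, ?_, rfl⟩
      · refine ⟨hgr, Δr ⟨r, hr⟩, hΔr _, fun g hg => ?_⟩
        rw [hb r]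
        exact hact ⟨r, hr⟩ g hg
      · refine ⟨proj_mem _ _ _, Δ', hΔ', fun g hg => ?_⟩
        have h4 := hinv g hg r hr
        have h5 : (χ g : W.K) ^ j = (χ g : W.K) ^ i ⟨r, hr⟩ *
            (χ g : W.K) ^ (j - i ⟨r, hr⟩) := by
          rw [← pow_add]
          congr 1
          omega
        rw [h5, mul_smul] at h4
        have h6 := smul_right_injective _ (pow_ne_zero _ (Units.ne_zero (χ g))) h4
        have h7 : ∀ z, τ g (proj (W.isInternal Z) (2 * (j - i ⟨r, hr⟩)) z) =
            proj (W.isInternal Z) (2 * (j - i ⟨r, hr⟩)) (τ g z) := by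
          intro z
          refine gr_induction (W.isInternal Z) (p := fun z =>
            τ g (proj (W.isInternal Z) (2 * (j - i ⟨r, hr⟩)) z) =
            proj (W.isInternal Z) (2 * (j - i ⟨r, hr⟩)) (τ g z)) ?_ ?_ z
          · intro l a ha
            by_cases hl : l = 2 * (j - i ⟨r, hr⟩)
            · subst hl
              rw [proj_same _ ha, proj_same _ (hτ g _ a ha)]
            · rw [proj_ne _ ha hl, proj_ne _ (hτ g _ a ha) hl, map_zero]
          · intro a a' ha ha'
            rw [map_add, map_add, map_add, map_add, ha, ha']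
        rw [h7, h6, map_smul]
    · rw [if_neg hij]
      exact Submodule.zero_mem _
  · rw [hq0 r hr, map_zero, mul_zero, map_zero]
    exact Submodule.zero_mem _

/-- The algebraic classes on the product, if the Tate conjecture holds for the first factor. -/
theorem as_span1 (hU : Unlinked χ (W.gr A) ρ τ) (hτ : ∀ g i, ∀ a ∈ W.gr Z i, τ g a ∈ W.gr Z i)
    (hA : TateAct χ (W.gr A) (algClasses W A) ρ)
    (hcl : IsFixedUpToTwist χ (algClasses W (A.prod Z)) υ) {z : W.H (A.prod Z)}
    (hz : W552.AS W (A.prod Z) z) :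
    z ∈ Submodule.span W.K {w | ∃ x y, W552.AS W A x ∧ w = H281R3.HT.ext W x y} := by
  refine W552.AS.ind (p := fun z => z ∈ Submodule.span W.K
    {w | ∃ x y, W552.AS W A x ∧ w = H281R3.HT.ext W x y}) ?_
    (fun x y hx hy => Submodule.add_mem _ hx hy) hz
  intro j c hc
  obtain ⟨Δ, hΔ, h3⟩ := hcl j c hc
  refine (Submodule.span_le.2 ?_) (tate_span h1 h2 hU hτ (alg_gr hc) hΔ h3)
  rintro _ ⟨i, i', x, y, hx, -, rfl⟩
  have h4 : x ∈ algSpan W A := Submodule.span_mono (Set.subset_iUnion _ i) (hA i x hx.1 hx.2)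
  rw [SetLike.mem_coe]
  rw [algSpan_eq] at h4
  clear hx
  induction h4 using Submodule.span_induction with
  | mem m hm => exact Submodule.subset_span ⟨m, y, hm, rfl⟩
  | zero => rw [map_zero, zero_mul]; exact Submodule.zero_mem _
  | add x y _ _ hx hy => rw [map_add, add_mul]; exact Submodule.add_mem _ hx hy
  | smul c x _ hx => rw [map_smul, smul_mul_assoc]; exact Submodule.smul_mem _ _ hx

/-- The algebraic classes on the product, if the Tate conjecture holds for the second factor. -/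
theorem as_span2 (hU : Unlinked χ (W.gr A) ρ τ) (hτ : ∀ g i, ∀ a ∈ W.gr Z i, τ g a ∈ W.gr Z i)
    (hZ : TateAct χ (W.gr Z) (algClasses W Z) τ)
    (hcl : IsFixedUpToTwist χ (algClasses W (A.prod Z)) υ) {z : W.H (A.prod Z)}
    (hz : W552.AS W (A.prod Z) z) :
    z ∈ Submodule.span W.K {w | ∃ x y, W552.AS W Z y ∧ w = H281R3.HT.ext W x y} := by
  refine W552.AS.ind (p := fun z => z ∈ Submodule.span W.K
    {w | ∃ x y, W552.AS W Z y ∧ w = H281R3.HT.ext W x y}) ?_
    (fun x y hx hy => Submodule.add_mem _ hx hy) hz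
  intro j c hc
  obtain ⟨Δ, hΔ, h3⟩ := hcl j c hc
  refine (Submodule.span_le.2 ?_) (tate_span h1 h2 hU hτ (alg_gr hc) hΔ h3)
  rintro _ ⟨i, i', x, y, -, hy, rfl⟩
  have h4 : y ∈ algSpan W Z := Submodule.span_mono (Set.subset_iUnion _ i') (hZ i' y hy.1 hy.2)
  rw [SetLike.mem_coe]
  rw [algSpan_eq] at h4
  clear hy
  induction h4 using Submodule.span_induction with
  | mem m hm => exact Submodule.subset_span ⟨x, m, hm, rfl⟩
  | zero => rw [map_zero, mul_zero]; exact Submodule.zero_mem _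
  | add x y _ _ hx hy => rw [map_add, mul_add]; exact Submodule.add_mem _ hx hy
  | smul c x _ hx => rw [map_smul, mul_smul_comm]; exact Submodule.smul_mem _ _ hx

end act

section swap

variable {A Z : 𝒱.Obj}

/-- The exchange of the factors. -/
noncomputable def swap (A Z : 𝒱.Obj) : A.prod Z ⟶ Z.prod A := lift (snd A Z) (fst A Z)

theorem map_swap_ext (y : W.H Z) (x : W.H A) (hy : W552.AS W Z y) :
    W.map (swap A Z) (H281R3.HT.ext W y x) = H281R3.HT.ext W x y := by
  rw [H281R3.HT.ext, H281R3.HT.ext, map_mul, ← W.map_comp, ← W.map_comp, swap, lift_fst, lift_snd]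
  exact (hy.map (snd A Z)).comm _

theorem map_swap_swap (z : W.H (Z.prod A)) :
    W.map (swap Z A) (W.map (swap A Z) z) = z := by
  refine kun_ext (L := fun z => W.map (swap Z A) (W.map (swap A Z) z)) (L' := fun z => z)
    (fun a b => by rw [map_add, map_add]) (fun a b => rfl) ?_ z
  intro a b
  have h1 : ∀ a, W.map (swap Z A) (W.map (swap A Z) (W.map (fst Z A) a)) = W.map (fst Z A) a := by
    intro a
    rw [← W.map_comp, ← W.map_comp, swap, swap, Category.assoc, lift_fst, lift_snd]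
  have h2 : ∀ a, W.map (swap Z A) (W.map (swap A Z) (W.map (snd Z A) a)) = W.map (snd Z A) a := by
    intro a
    rw [← W.map_comp, ← W.map_comp, swap, swap, Category.assoc, lift_snd, lift_fst]
  rw [map_mul, map_mul, h1, h2]

theorem swap_tens {z : W.H (Z.prod A)} (hz : z ∈ TH132.A.tens W Z A) :
    W.map (swap A Z) z ∈ TH132.A.tens W A Z := by
  induction hz using AddSubmonoid.closure_induction with
  | mem w hw =>
    obtain ⟨x, y, hx, hy, rfl⟩ := hw
    exact AddSubmonoid.subset_closure ⟨y, x, hy, hx, map_swap_ext x y hx⟩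
  | zero => rw [map_zero]; exact AddSubmonoid.zero_mem _
  | add x y _ _ hx hy => rw [map_add]; exact AddSubmonoid.add_mem _ hx hy

/-- A sum of algebraic classes on `A × Z` which is a combination of products of arbitrary classes on
`A` and algebraic classes on `Z` is a sum of products of algebraic classes. -/
theorem mem_tens2 (hD : HomEqNum W Z) {z : W.H (A.prod Z)} (hz : W552.AS W (A.prod Z) z)
    (hs : z ∈ Submodule.span W.K {w | ∃ x y, W552.AS W Z y ∧ w = H281R3.HT.ext W x y}) :
    z ∈ TH132.A.tens W A Z := by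
  have h1 : W.map (swap Z A) z ∈ TH132.A.tens W Z A := by
    refine TH132.A.mem_tens hD (hz.map _) ?_
    clear hz
    induction hs using Submodule.span_induction with
    | mem w hw =>
      obtain ⟨x, y, hy, rfl⟩ := hw
      refine Submodule.subset_span ⟨y, x, hy, ?_⟩
      rw [H281R3.HT.ext, H281R3.HT.ext, map_mul, ← W.map_comp, ← W.map_comp, swap, lift_fst,
        lift_snd]
      exact ((hy.map (fst Z A)).comm _).symm
    | zero => rw [map_zero]; exact Submodule.zero_mem _
    | add x y _ _ hx hy => rw [map_add]; exact Submodule.add_mem _ hx hy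
    | smul c x _ hx => rw [map_smul]; exact Submodule.smul_mem _ _ hx
  have h2 := swap_tens h1
  rwa [map_swap_swap] at h2

end swap

section dee

variable {A Z : 𝒱.Obj}

/-- The conjecture D for a product implies the conjecture for the first factor. -/
theorem homEqNum_factor1 (hb : ∃ b ∈ algClasses W Z Z.dim, W.tr Z b ≠ 0)
    (h : HomEqNum W (A.prod Z)) : HomEqNum W A := by
  obtain ⟨b, hb, hb0⟩ := hb
  rw [Pool.Agent.TH125.Gal.homEqNum_iff] at h ⊢
  intro c hc hnum
  have h1 : W.map (fst A Z) c = 0 := by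
    refine h _ (hc.map _) fun w hw => ?_
    rw [(hc.map (fst A Z)).comm, ← W.tr_push, ← (hc.comm (W.push (fst A Z) w))]
    exact hnum _ (hw.push _)
  have h2 : W.push (fst A Z) (W.map (fst A Z) c * W.map (snd A Z) b) = 0 := by
    rw [h1, zero_mul, map_zero]
  rw [push_fst _ (alg_gr hb)] at h2
  exact (smul_eq_zero.1 h2).resolve_left hb0

theorem one_ne_of_point (h : ∃ a ∈ algClasses W A A.dim, W.tr A a ≠ 0) : (1 : W.H A) ≠ 0 := by
  obtain ⟨a, -, ha⟩ := h
  intro h0
  apply ha
  rw [← one_mul a, h0, zero_mul, map_zero]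

variable {Γ : Type} [Group Γ] {χ : Γ →* W.Kˣ}
  {ρ : Γ →* (W.H A ≃ₐ[W.K] W.H A)} {τ : Γ →* (W.H Z ≃ₐ[W.K] W.H Z)}
  {υ : Γ →* (W.H (A.prod Z) ≃ₐ[W.K] W.H (A.prod Z))}
  (h1 : ∀ g a, υ g (W.map (fst A Z) a) = W.map (fst A Z) (ρ g a))
  (h2 : ∀ g z, υ g (W.map (snd A Z) z) = W.map (snd A Z) (τ g z))

include h1 h2

/-- **The conjecture D for a product with an unlinked factor.** -/
theorem dee_prod (hU : Unlinked χ (W.gr A) ρ τ) (hτ : ∀ g i, ∀ a ∈ W.gr Z i, τ g a ∈ W.gr Z i)
    (hT : TateAct χ (W.gr A) (algClasses W A) ρ ∨ TateAct χ (W.gr Z) (algClasses W Z) τ)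
    (hcl : IsFixedUpToTwist χ (algClasses W (A.prod Z)) υ)
    (hA : ∃ a ∈ algClasses W A A.dim, W.tr A a ≠ 0)
    (hZ : ∃ a ∈ algClasses W Z Z.dim, W.tr Z a ≠ 0) :
    HomEqNum W (A.prod Z) ↔ HomEqNum W Z ∧ HomEqNum W A := by
  constructor
  · intro h
    obtain ⟨a, ha, ha0⟩ := hA
    exact ⟨homEqNum_factor ha0 h, homEqNum_factor1 hZ h⟩
  · rintro ⟨hDZ, hDA⟩
    refine (TH132.A.homEqNum_prod_iff ?_ hDA (one_ne_of_point hA)).2 hDZ
    intro z hz
    rcases hT with hT | hT
    · exact TH132.A.mem_tens hDA hz (as_span1 h1 h2 hU hτ hT hcl hz)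
    · exact mem_tens2 hDZ hz (as_span2 h1 h2 hU hτ hT hcl hz)

end dee

end Pool.Agent.H621.AF
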