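import Pool.Agent.H621.AF.Dee

/-!
# The conjecture D for the products with the members outside of the exceptional set
-/

open CategoryTheory AlgebraicGeometry Finset Module

set_option linter.unusedSectionVars false

universe u

namespace Pool.Agent.H621.AF

open Pool.Agent.TH125.Gal
open Pool.Agent.H914 Pool.Agent.H914.VarClass Pool.Agent.H914.VarClass.Obj
  Pool.Agent.H914.WeilCohomology

variable {k : Type u} [Field k] {𝒱 : VarClass k} {ops : CycleOps 𝒱}
  {W : WeilCohomology.{u, 0} ops} {Γ : Type} [Group Γ] {χ : Γ →* W.Kˣ}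
  {P : FinRep W.K Γ} {J : Type} {F : J → Set (GVar W Γ)}

theorem conjectureD_iff {X : GVar W Γ} : ConjectureD X ↔ HomEqNum W X.X := by
  have key : ∀ {X : 𝒱.Obj} {z w : X.Cycles} {j : ℕ}, j ≤ X.dim → X.IsCyc j z →
      X.IsCyc (X.dim - j) w →
      W.tr X (W.cl X z * W.cl X w) = ((X.V.degCycle (ops.mul z w) : ℚ) : W.K) := by
    intro X z w j hj hz hw
    have e1 := ops.mul_mem hz hw
    rw [show j + (X.dim - j) = X.dim by omega] at e1
    rw [← W.cl_mul, W.tr_cl e1]
  constructor
  · intro h j hj z hz h0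
    refine h j hj _ ⟨z, hz, rfl⟩ ?_
    rintro _ ⟨w, hw, rfl⟩
    rw [key hj hz hw, h0 w hw, Rat.cast_zero]
  · rintro h j hj _ ⟨z, hz, rfl⟩ h0
    refine h j hj z hz fun w hw => ?_
    have h1 := h0 _ ⟨w, hw, rfl⟩
    rw [key hj hz hw] at h1
    exact_mod_cast h1

theorem TateForAllButOne.tail {Z : GVar W Γ} {q : J × GVar W Γ} {l : List (J × GVar W Γ)}
    (h : TateForAllButOne χ Z (q :: l)) : TateForAllButOne χ Z l := by
  rcases h with h | ⟨h, i, h'⟩
  · exact Or.inl fun p hp => h p (List.mem_cons_of_mem _ hp)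
  · exact Or.inr ⟨h, i, fun p hp => h' p (List.mem_cons_of_mem _ hp)⟩

/-- The Tate conjecture for one of the two factors. -/
theorem tate_or [IsAlgClosed W.K] (hF : IndependentFamily χ F) {S : Finset J}
    (hS : ∀ B : Finset J, ∀ i, i ∉ (S : Set J) ∪ B → ¬ LinkedTo χ P F ((S : Set J) ∪ B) i)
    {Z : GVar W Γ} (hZd : RespectsDegrees Z) (hZp : HasPoint Z)
    (hZ : EigenvaluesFrom χ P F S Z) {l : List (J × GVar W Γ)}
    {Y : GVar W Γ} (hY : IsTower F Z l Y) (hl : ∀ p ∈ l, p.1 ∉ S) {i : J} (hi : ∀ p ∈ l, p.1 ≠ i)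
    {X : GVar W Γ} (h : TateForAllButOne χ Z ((i, X) :: l)) :
    TateConjecture χ X ∨ TateConjecture χ Y := by
  rcases h with h | ⟨h, i', h'⟩
  · exact Or.inl (h (i, X) List.mem_cons_self)
  · by_cases hii : i = i'
    · subst hii
      exact Or.inr ((tate_tower hF hS hZd hZp hZ hY hl).2
        ⟨h, fun p hp => h' p (List.mem_cons_of_mem _ hp) (hi p hp)⟩)
    · exact Or.inl (h' (i, X) List.mem_cons_self hii)

/-- **The conjecture D for towers.** -/
theorem dee_tower [IsAlgClosed W.K] (hF : IndependentFamily χ F) {S : Finset J}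
    (hS : ∀ B : Finset J, ∀ i, i ∉ (S : Set J) ∪ B → ¬ LinkedTo χ P F ((S : Set J) ∪ B) i)
    {Z : GVar W Γ} (hZd : RespectsDegrees Z) (hZp : HasPoint Z)
    (hZ : EigenvaluesFrom χ P F S Z) (hcl : ∀ l Y, IsTower F Z l Y → RespectsCycles χ Y)
    {l : List (J × GVar W Γ)} {Y : GVar W Γ} (hY : IsTower F Z l Y) (hl : ∀ p ∈ l, p.1 ∉ S)
    (hT : TateForAllButOne χ Z l) :
    ConjectureD Y ↔ ConjectureD Z ∧ ∀ p ∈ l, ConjectureD p.2 := by
  induction hY with
  | base => simp
  | @step l Y Y' i X hT' hi hX hP ih =>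
    have ih' := ih (fun p hp => hl p (List.mem_cons_of_mem _ hp)) hT.tail
    have hU := tower_unlinked hF hS hZd hZ hT' hi (hl _ List.mem_cons_self) hX
    obtain ⟨hYd, -, hYp⟩ := tower_props hF hZd hZ hT'
    have hor := tate_or hF hS hZd hZp hZ hT' (fun p hp => hl p (List.mem_cons_of_mem _ hp)) hi hT
    have hcl' := hcl _ _ (IsTower.step i X hT' hi hX hP)
    have hgoal : ConjectureD Y' ↔ ConjectureD Y ∧ ConjectureD X := by
      rw [conjectureD_iff, conjectureD_iff, conjectureD_iff]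
      obtain ⟨YX, υ⟩ := Y'
      obtain ⟨h0, h1, h2⟩ := hP
      change YX = X.X.prod Y.X at h0
      subst h0
      simp only [eqToHom_refl, Category.id_comp] at h1 h2
      exact dee_prod h1 h2 hU hYd hor hcl' (hF.point i X hX) (hYp hZp)
    rw [hgoal, ih', and_assoc]
    refine and_congr_right fun _ => ?_
    constructor
    · rintro ⟨h1, h2⟩ p hp
      rcases List.mem_cons.1 hp with rfl | hp
      · exact h2
      · exact h1 p hp
    · intro h
      exact ⟨fun p hp => h p (List.mem_cons_of_mem _ hp), h (i, X) List.mem_cons_self⟩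

/-- The algebraic classes on the product split. -/
theorem tens_step [IsAlgClosed W.K] {X Y : GVar W Γ}
    {υ : Γ →* (W.H (X.X.prod Y.X) ≃ₐ[W.K] W.H (X.X.prod Y.X))}
    (h1 : ∀ g a, υ g (W.map (fst X.X Y.X) a) = W.map (fst X.X Y.X) (X.act g a))
    (h2 : ∀ g z, υ g (W.map (snd X.X Y.X) z) = W.map (snd X.X Y.X) (Y.act g z))
    (hU : Unlinked χ (W.gr X.X) X.act Y.act) (hYd : RespectsDegrees Y)
    (hcl : RespectsCycles χ ⟨X.X.prod Y.X, υ⟩)
    (h : TateConjecture χ X ∧ ConjectureD X ∨ TateConjecture χ Y ∧ ConjectureD Y)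
    {z : W.H (X.X.prod Y.X)} (hz : W552.AS W (X.X.prod Y.X) z) :
    z ∈ TH132.A.tens W X.X Y.X := by
  rcases h with ⟨hT, hD⟩ | ⟨hT, hD⟩
  · exact TH132.A.mem_tens (conjectureD_iff.1 hD) hz (as_span1 h1 h2 hU hYd hT hcl hz)
  · exact mem_tens2 (conjectureD_iff.1 hD) hz (as_span2 h1 h2 hU hYd hT hcl hz)

/-- **The algebraic classes on towers.** -/
theorem split_tower [IsAlgClosed W.K] (hF : IndependentFamily χ F) {S : Finset J}
    (hS : ∀ B : Finset J, ∀ i, i ∉ (S : Set J) ∪ B → ¬ LinkedTo χ P F ((S : Set J) ∪ B) i)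
    {Z : GVar W Γ} (hZd : RespectsDegrees Z) (hZp : HasPoint Z)
    (hZ : EigenvaluesFrom χ P F S Z) (hcl : ∀ l Y, IsTower F Z l Y → RespectsCycles χ Y)
    {l : List (J × GVar W Γ)} {Y : GVar W Γ} (hY : IsTower F Z l Y) (hl : ∀ p ∈ l, p.1 ∉ S)
    (hT : TateForAllButOne χ Z l) (hD : ∀ p ∈ l, ConjectureD p.2)
    (hDZ : (∀ p ∈ l, TateConjecture χ p.2) ∨ ConjectureD Z) : CyclesSplit Z l Y := by
  induction hY with
  | base => exact fun j c hc => AddSubmonoid.subset_closure (IsProductClass.base j c hc)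
  | @step l Y Y' i X hT' hi hX hP ih =>
    have hl' : ∀ p ∈ l, p.1 ∉ S := fun p hp => hl p (List.mem_cons_of_mem _ hp)
    have hD' : ∀ p ∈ l, ConjectureD p.2 := fun p hp => hD p (List.mem_cons_of_mem _ hp)
    have hDZ' : (∀ p ∈ l, TateConjecture χ p.2) ∨ ConjectureD Z :=
      hDZ.imp_left fun h p hp => h p (List.mem_cons_of_mem _ hp)
    have ih' := ih hl' hT.tail hD' hDZ'
    have hU := tower_unlinked hF hS hZd hZ hT' hi (hl _ List.mem_cons_self) hX
    obtain ⟨hYd, -, hYp⟩ := tower_props hF hZd hZ hT'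
    have hor : TateConjecture χ X ∧ ConjectureD X ∨ TateConjecture χ Y ∧ ConjectureD Y := by
      by_cases hTX : TateConjecture χ X
      · exact Or.inl ⟨hTX, hD (i, X) List.mem_cons_self⟩
      · refine Or.inr ⟨(tate_or hF hS hZd hZp hZ hT' hl' hi hT).resolve_left hTX, ?_⟩
        refine (dee_tower hF hS hZd hZp hZ hcl hT' hl' hT.tail).2 ⟨?_, hD'⟩
        exact hDZ.resolve_left fun h => hTX (h (i, X) List.mem_cons_self)
    have hcl' := hcl _ _ (IsTower.step i X hT' hi hX hP)
    obtain ⟨YX, υ⟩ := Y'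
    obtain ⟨h0, h1, h2⟩ := hP
    change YX = X.X.prod Y.X at h0
    subst h0
    have hstep : ∀ (j : ℕ) (a : W.H X.X), a ∈ algClasses W X.X j → ∀ c,
        IsProductClass (J := J) Z l Y c → H281R3.HT.ext W a c ∈ AddSubmonoid.closure
          {c | IsProductClass Z ((i, X) :: l) (⟨X.X.prod Y.X, υ⟩ : GVar W Γ) c} := by
      intro j a ha c hc
      have h3 := IsProductClass.step (Y' := (⟨X.X.prod Y.X, υ⟩ : GVar W Γ)) i X j a rfl hc ha
      rw [cross, mulPull] at h3
      simp only [eqToHom_refl, Category.id_comp] at h3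
      exact AddSubmonoid.subset_closure h3
    simp only [eqToHom_refl, Category.id_comp] at h1 h2
    intro j c hc
    have h4 := tens_step h1 h2 hU hYd hcl' hor (W552.AS.of hc)
    clear hc
    induction h4 using AddSubmonoid.closure_induction with
    | zero => exact AddSubmonoid.zero_mem _
    | add x y _ _ hx hy => exact AddSubmonoid.add_mem _ hx hy
    | mem w hw =>
      obtain ⟨x, y, hx, hy, rfl⟩ := hw
      refine W552.AS.ind (p := fun x => H281R3.HT.ext W x y ∈ AddSubmonoid.closure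
        {c | IsProductClass Z ((i, X) :: l) (⟨X.X.prod Y.X, υ⟩ : GVar W Γ) c}) ?_ ?_ hx
      · intro i' x hx
        refine W552.AS.ind (p := fun y => H281R3.HT.ext W x y ∈ AddSubmonoid.closure
          {c | IsProductClass Z ((i, X) :: l) (⟨X.X.prod Y.X, υ⟩ : GVar W Γ) c}) ?_ ?_ hy
        · intro j' y hy
          have h5 := ih' j' y hy
          clear hy
          induction h5 using AddSubmonoid.closure_induction with
          | zero =>
            rw [H281R3.HT.ext, map_zero, mul_zero]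
            exact AddSubmonoid.zero_mem _
          | add y y' _ _ hy hy' =>
            rw [show H281R3.HT.ext W x (y + y') = H281R3.HT.ext W x y + H281R3.HT.ext W x y' by
              simp only [H281R3.HT.ext, map_add, mul_add]]
            exact AddSubmonoid.add_mem _ hy hy'
          | mem c hc => exact hstep i' x hx c hc
        · intro y y' hy hy'
          rw [show H281R3.HT.ext W x (y + y') = H281R3.HT.ext W x y + H281R3.HT.ext W x y' by
            simp only [H281R3.HT.ext, map_add, mul_add]]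
          exact AddSubmonoid.add_mem _ hy hy'
      · intro x x' hx hx'
        rw [show H281R3.HT.ext W (x + x') y = H281R3.HT.ext W x y + H281R3.HT.ext W x' y by
          simp only [H281R3.HT.ext, map_add, add_mul]]
        exact AddSubmonoid.add_mem _ hx hx'

end Pool.Agent.H621.AF
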