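import Mathlib

/-!
# Eigenvalues, Tate classes and generic elements: definitions
-/

namespace Pool.Agent.H621.AF

section eig

variable {K : Type} [Field K]

/-- The element `x` has a power in the group generated by `c`. -/
def Near (c x : Kˣ) : Prop := ∃ n : ℕ, 0 < n ∧ x ^ n ∈ Subgroup.zpowers c

/-- The groups generated by the sets `E i`, `i ∈ A`, are independent modulo the roots of unity and
the roots of the powers of `c`. -/
def IndependentModulo {J : Type} (c : Kˣ) (E : J → Set Kˣ) (A : Finset J) : Prop :=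
  ∀ x : J → Kˣ, (∀ i ∈ A, x i ∈ Subgroup.closure (E i)) → Near c (∏ i ∈ A, x i) →
    ∀ i ∈ A, Near c (x i)

end eig

section alg

variable {K A : Type} [Field K] [Ring A] [Algebra K A] {Γ : Type} [Group Γ]

/-- `x` is an eigenvalue of `g` on the subspace `P`. -/
def IsEigenvalueOn (ρ : Γ →* (A ≃ₐ[K] A)) (g : Γ) (P : Submodule K A) (x : Kˣ) : Prop :=
  ∃ a ∈ P, a ≠ 0 ∧ ρ g a = (x : K) • a

/-- `c` is a Tate class of codimension `j`: an element of `gr (2 * j)` which is multiplied by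
`χ g ^ j` by all `g` in a subgroup of finite index. -/
def IsTateClass (χ : Γ →* Kˣ) (gr : ℕ → Submodule K A) (ρ : Γ →* (A ≃ₐ[K] A)) (j : ℕ)
    (c : A) : Prop :=
  c ∈ gr (2 * j) ∧ ∃ Δ : Subgroup Γ, Δ.FiniteIndex ∧ ∀ g ∈ Δ, ρ g c = (χ g : K) ^ j • c

/-- The element `g` is generic: for every subspace `P` which is stable under a subgroup of finite
index and which is not contained in the span of the Tate classes, the powers `g ^ m`, `m > 0`, in
this subgroup have on `P` an eigenvalue no power of which is a power of `χ g`. -/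
def IsGeneric (χ : Γ →* Kˣ) (gr : ℕ → Submodule K A) (ρ : Γ →* (A ≃ₐ[K] A)) (g : Γ) : Prop :=
  ∀ (Δ : Subgroup Γ) (P : Submodule K A) (m : ℕ), Δ.FiniteIndex →
    (∀ h ∈ Δ, ∀ a ∈ P, ρ h a ∈ P) → 0 < m → g ^ m ∈ Δ →
    (∀ x, IsEigenvalueOn ρ (g ^ m) P x → Near (χ g) x) →
    P ≤ Submodule.span K {c | ∃ j, IsTateClass χ gr ρ j c}

/-- `x` is an eigenvalue of `g`. -/
def IsEigenvalue (ρ : Γ →* (A ≃ₐ[K] A)) (g : Γ) (x : Kˣ) : Prop := IsEigenvalueOn ρ g ⊤ x

/-- The automorphisms respect the subspaces `gr i`. -/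
def IsGradedAct (gr : ℕ → Submodule K A) (ρ : Γ →* (A ≃ₐ[K] A)) : Prop :=
  ∀ g i, ∀ a ∈ gr i, ρ g a ∈ gr i

/-- The linear form `tr` is not zero on the set `C`. -/
def IsNonzeroOn (tr : A →ₗ[K] K) (C : Set A) : Prop := ∃ a ∈ C, tr a ≠ 0

end alg

/-- `x` is in the group generated by `c`, by `E` and by the sets `E' i`, `i ∈ S`. -/
def IsGenerated {K J : Type} [Field K] (c : Kˣ) (E : Set Kˣ) (E' : J → Set Kˣ) (S : Set J)
    (x : Kˣ) : Prop :=
  x ∈ Subgroup.closure ({c} ∪ E ∪ ⋃ i ∈ S, E' i)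

/-- A finite-dimensional representation of the group `Γ`. -/
structure FinRep (K Γ : Type) [Field K] [Group Γ] where
  /-- the space -/
  V : Type
  [grp : AddCommGroup V]
  [mod : Module K V]
  [fin : FiniteDimensional K V]
  /-- the action -/
  ρ : Γ →* (V →ₗ[K] V)

attribute [instance] FinRep.grp FinRep.mod FinRep.fin

/-- The eigenvalues of `g` on the representation. -/
def FinRep.eigenvalues {K Γ : Type} [Field K] [Group Γ] (P : FinRep K Γ) (g : Γ) : Set Kˣ :=
  {x | ∃ v : P.V, v ≠ 0 ∧ P.ρ g v = (x : K) • v}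

end Pool.Agent.H621.AF
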