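import Pool.Agent.H621.AF.Defs

/-!
# Eigenvalues
-/

set_option autoImplicit false

open Module

namespace Pool.Agent.H621.AF

variable {K : Type} [Field K] {V U : Type*} [AddCommGroup V] [Module K V] [FiniteDimensional K V]
  [AddCommGroup U] [Module K U]

/-- Eigenvalues of powers. -/
theorem eig_root [IsAlgClosed K] {T : End K V} {m : ℕ} (hm : 0 < m) {x : Kˣ}
    (h : ∃ v, v ≠ 0 ∧ (T ^ m) v = (x : K) • v) :
    ∃ y : Kˣ, (∃ v, v ≠ 0 ∧ T v = (y : K) • v) ∧ y ^ m = x := by
  obtain ⟨v, hv, h⟩ := h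
  have h1 : (T ^ m).HasEigenvalue (x : K) :=
    End.hasEigenvalue_of_hasEigenvector ⟨End.mem_eigenspace_iff.2 h, hv⟩
  rw [End.hasEigenvalue_iff_mem_spectrum, spectrum.map_pow_of_pos T hm] at h1
  obtain ⟨y, hy, hyx⟩ := h1
  rw [← End.hasEigenvalue_iff_mem_spectrum] at hy
  obtain ⟨w, hw⟩ := hy.exists_hasEigenvector
  have hy0 : y ≠ 0 := by
    rintro rfl
    simp only [zero_pow hm.ne'] at hyx
    exact x.ne_zero hyx.symm
  refine ⟨Units.mk0 y hy0, ⟨w, hw.2, End.mem_eigenspace_iff.1 hw.1⟩, ?_⟩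
  ext
  simpa using hyx

/-- Eigenvalues of the transpose. -/
theorem eig_of_dual {T : End K V} {y : K} {φ : V →ₗ[K] K} (hφ : φ ≠ 0)
    (h : ∀ v, φ (T v) = y * φ v) : ∃ v, v ≠ 0 ∧ T v = y • v := by
  by_contra hcon
  push Not at hcon
  have h1 : Function.Injective (T - y • (1 : End K V)) := by
    rw [← LinearMap.ker_eq_bot, LinearMap.ker_eq_bot']
    intro v hv
    by_contra hv0
    apply hcon v hv0
    rw [LinearMap.sub_apply, LinearMap.smul_apply, Module.End.one_apply, sub_eq_zero] at hv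
    exact hv
  have h2 := LinearMap.injective_iff_surjective.1 h1
  apply hφ
  ext v
  obtain ⟨w, rfl⟩ := h2 v
  rw [LinearMap.sub_apply, LinearMap.smul_apply, Module.End.one_apply, map_sub, h, map_smul,
    smul_eq_mul, sub_self, LinearMap.zero_apply]

/-- Eigenvalues of quotients. -/
theorem eig_of_quotient [FiniteDimensional K U] {L : U →ₗ[K] V} {R : End K V} {S : End K U}
    (hRS : ∀ u, R (L u) = L (S u)) {x : K} {v : V} (hvL : v ∈ LinearMap.range L) (hv : v ≠ 0)
    (h : R v = x • v) : ∃ u, u ≠ 0 ∧ S u = x • u := by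
  by_contra hcon
  push Not at hcon
  have h1 : Function.Injective (S - x • (1 : End K U)) := by
    rw [← LinearMap.ker_eq_bot, LinearMap.ker_eq_bot']
    intro u hu
    by_contra hu0
    apply hcon u hu0
    rw [LinearMap.sub_apply, LinearMap.smul_apply, Module.End.one_apply, sub_eq_zero] at hu
    exact hu
  have h2 := LinearMap.injective_iff_surjective.1 h1
  have hmem : ∀ w ∈ LinearMap.range L, (R - x • (1 : End K V)) w ∈ LinearMap.range L := by
    rintro _ ⟨u, rfl⟩
    refine ⟨(S - x • (1 : End K U)) u, ?_⟩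
    simp [hRS]
  let R' : End K (LinearMap.range L) := (R - x • (1 : End K V)).restrict hmem
  have h3 : Function.Surjective R' := by
    rintro ⟨_, ⟨u, rfl⟩⟩
    obtain ⟨u', hu'⟩ := h2 u
    refine ⟨⟨L u', ⟨u', rfl⟩⟩, ?_⟩
    apply Subtype.ext
    change (R - x • (1 : End K V)) (L u') = L u
    rw [← hu']
    simp [hRS]
  have h4 := LinearMap.injective_iff_surjective.2 h3
  have h5 : R' ⟨v, hvL⟩ = 0 := by
    apply Subtype.ext
    change (R - x • (1 : End K V)) v = 0
    rw [LinearMap.sub_apply, LinearMap.smul_apply, Module.End.one_apply, h, sub_self]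
  have h6 := h4 (h5.trans (map_zero R').symm)
  exact hv (congrArg Subtype.val h6)

/-- A product of commuting operators. -/
theorem eig_mul [IsAlgClosed K] {T S : End K V} (hTS : T * S = S * T) {w : K} {v : V}
    (hv : v ≠ 0) (h : (T * S) v = w • v) :
    ∃ x y : K, w = x * y ∧ (∃ v, v ≠ 0 ∧ T v = x • v) ∧ (∃ v, v ≠ 0 ∧ S v = y • v) := by
  let E : Submodule K V := End.eigenspace (T * S) w
  have hvE : v ∈ E := End.mem_eigenspace_iff.2 h
  have hTE : ∀ u ∈ E, T u ∈ E := by
    intro u hu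
    rw [End.mem_eigenspace_iff] at hu ⊢
    have h1 : (T * S) (T u) = T ((T * S) u) := by
      have h2 : T * S * T = T * (T * S) := by rw [mul_assoc, ← hTS]
      exact congrArg (fun f : End K V => f u) h2
    rw [h1, hu, map_smul]
  haveI : Nontrivial E := ⟨⟨⟨v, hvE⟩, 0, fun h => hv (congrArg Subtype.val h)⟩⟩
  obtain ⟨x, hx⟩ := End.exists_eigenvalue (T.restrict hTE)
  obtain ⟨u, hu⟩ := hx.exists_hasEigenvector
  have hu1 : T (u : V) = x • (u : V) := congrArg Subtype.val (End.mem_eigenspace_iff.1 hu.1)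
  have hu2 : (T * S) (u : V) = w • (u : V) := End.mem_eigenspace_iff.1 u.2
  have hu0 : (u : V) ≠ 0 := fun h => hu.2 (Subtype.ext h)
  rw [hTS] at hu2
  have hu3 : x • S (u : V) = w • (u : V) := by
    rw [← hu2]
    change _ = S (T (u : V))
    rw [hu1, map_smul]
  by_cases hx0 : x = 0
  · subst hx0
    rw [zero_smul] at hu3
    have hw : w = 0 := by
      by_contra hw
      exact hu0 ((smul_eq_zero.1 hu3.symm).resolve_left hw)
    subst hw
    obtain ⟨y, hy⟩ := (show Nontrivial V from ⟨⟨v, 0, hv⟩⟩) |> fun h => @End.exists_eigenvalue K V _ _ _ _ _ h S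
    obtain ⟨u', hu'⟩ := hy.exists_hasEigenvector
    exact ⟨0, y, (zero_mul y).symm, ⟨u, hu0, hu1⟩, ⟨u', hu'.2, End.mem_eigenspace_iff.1 hu'.1⟩⟩
  · refine ⟨x, w / x, (mul_div_cancel₀ w hx0).symm, ⟨u, hu0, hu1⟩, ⟨u, hu0, ?_⟩⟩
    rw [div_eq_inv_mul, mul_smul, ← hu3, smul_smul, inv_mul_cancel₀ hx0, one_smul]

/-- The number of the eigenvalues. -/
theorem card_eig (T : End K V) :
    {x : Kˣ | ∃ v, v ≠ 0 ∧ T v = (x : K) • v}.Finite ∧
      {x : Kˣ | ∃ v, v ≠ 0 ∧ T v = (x : K) • v}.ncard ≤ finrank K V := by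
  set E : Set Kˣ := {x : Kˣ | ∃ v, v ≠ 0 ∧ T v = (x : K) • v} with hE
  choose v hv0 hv using fun x : E => x.2
  have hli : LinearIndependent K v := by
    refine End.eigenvectors_linearIndependent' T (fun x : E => ((x : Kˣ) : K)) ?_ v ?_
    · intro x y h
      exact Subtype.ext (Units.ext h)
    · intro x
      exact ⟨End.mem_eigenspace_iff.2 (hv x), hv0 x⟩
  haveI : Finite E := hli.finite
  haveI := Fintype.ofFinite E
  refine ⟨Set.toFinite _, ?_⟩
  have h1 := hli.fintype_card_le_finrank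
  rwa [← Nat.card_eq_fintype_card] at h1

end Pool.Agent.H621.AF
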