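import Pool.Agent.H621.AF.Eig
import Pool.Agent.TH125.Gal.Tate

/-!
# Tate classes on a product
-/

open CategoryTheory AlgebraicGeometry Finset Module

set_option linter.unusedSectionVars false

universe u

namespace Pool.Agent.H621.AF

open Pool.Agent.TH125.Gal
open Pool.Agent.H914 Pool.Agent.H914.VarClass Pool.Agent.H914.VarClass.Obj
  Pool.Agent.H914.WeilCohomology Pool.Agent.H281R3.HT Pool.Agent.W552

variable {k : Type u} [Field k] {𝒱 : VarClass k} {ops : CycleOps 𝒱}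
  {W : WeilCohomology.{u, 0} ops}

/-- Contraction with a linear form on the second factor. -/
noncomputable def ctr2 {A Z : 𝒱.Obj} (ψ : W.H Z →ₗ[W.K] W.K) :
    W.H (A.prod Z) →ₗ[W.K] W.H A :=
  (TensorProduct.rid W.K (W.H A)).toLinearMap ∘ₗ (ψ.lTensor (W.H A)) ∘ₗ
    (kEquiv W A Z).symm.toLinearMap

theorem ctr2_apply {A Z : 𝒱.Obj} (ψ : W.H Z →ₗ[W.K] W.K) (a : W.H A) (z : W.H Z) :
    ctr2 ψ (W.map (fst A Z) a * W.map (snd A Z) z) = ψ z • a := by
  change TensorProduct.rid W.K (W.H A) (ψ.lTensor (W.H A) ((kEquiv W A Z).symm _)) = _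
  rw [kEquiv_symm, LinearMap.lTensor_tmul, TensorProduct.rid_tmul]

theorem ctr2_add {A Z : 𝒱.Obj} (ψ ψ' : W.H Z →ₗ[W.K] W.K) (c : W.H (A.prod Z)) :
    ctr2 (ψ + ψ') c = ctr2 ψ c + ctr2 ψ' c := by
  refine kun_ext (L := ctr2 (ψ + ψ')) (L' := fun c => ctr2 ψ c + ctr2 ψ' c)
    (fun a b => map_add _ _ _) ?_ ?_ c
  · intro a b
    rw [map_add, map_add]
    abel
  · intro a z
    rw [ctr2_apply, ctr2_apply, ctr2_apply, LinearMap.add_apply, add_smul]

theorem ctr2_smul {A Z : 𝒱.Obj} (x : W.K) (ψ : W.H Z →ₗ[W.K] W.K) (c : W.H (A.prod Z)) :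
    ctr2 (x • ψ) c = x • ctr2 ψ c := by
  refine kun_ext (L := ctr2 (x • ψ)) (L' := fun c => x • ctr2 ψ c)
    (fun a b => map_add _ _ _) ?_ ?_ c
  · intro a b
    rw [map_add, smul_add]
  · intro a z
    rw [ctr2_apply, ctr2_apply, LinearMap.smul_apply, smul_eq_mul, mul_smul]

/-- Expansion in a basis of the cohomology of the second factor. -/
theorem expand2 {A Z : 𝒱.Obj} {R : Type*} [Fintype R] (b : Module.Basis R W.K (W.H Z))
    (c : W.H (A.prod Z)) :
    c = ∑ r, W.map (fst A Z) (ctr2 (b.coord r) c) * W.map (snd A Z) (b r) := by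
  refine kun_ext (L := fun c => c) (L' := fun c => ∑ r, W.map (fst A Z) (ctr2 (b.coord r) c) *
    W.map (snd A Z) (b r)) (fun _ _ => rfl) ?_ ?_ c
  · intro a c
    rw [← Finset.sum_add_distrib]
    refine Finset.sum_congr rfl fun r _ => ?_
    rw [map_add, map_add, add_mul]
  · intro a z
    simp only [ctr2_apply, map_smul]
    have h1 : ∀ r, (b.coord r z • W.map (fst A Z) a) * W.map (snd A Z) (b r) =
        W.map (fst A Z) a * W.map (snd A Z) (b.repr z r • b r) := by
      intro r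
      rw [map_smul, smul_mul_assoc, mul_smul_comm]
      rfl
    rw [Finset.sum_congr rfl fun r _ => h1 r, ← Finset.mul_sum, ← map_sum, b.sum_repr]

/-- The map `f ⊗ g`. -/
noncomputable def tmap {A Z : 𝒱.Obj} (f : End W.K (W.H A)) (g : End W.K (W.H Z)) :
    End W.K (W.H (A.prod Z)) :=
  (kEquiv W A Z).toLinearMap ∘ₗ (TensorProduct.map f g) ∘ₗ (kEquiv W A Z).symm.toLinearMap

theorem tmap_apply {A Z : 𝒱.Obj} (f : End W.K (W.H A)) (g : End W.K (W.H Z)) (a : W.H A)
    (z : W.H Z) : tmap f g (W.map (fst A Z) a * W.map (snd A Z) z) =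
      W.map (fst A Z) (f a) * W.map (snd A Z) (g z) := by
  change kEquiv W A Z (TensorProduct.map f g ((kEquiv W A Z).symm _)) = _
  rw [kEquiv_symm, TensorProduct.map_tmul, kEquiv_tmul]

theorem lin_ext {A Z : 𝒱.Obj} {M : Type*} [AddCommGroup M] [Module W.K M]
    {L L' : W.H (A.prod Z) →ₗ[W.K] M}
    (h : ∀ a z, L (W.map (fst A Z) a * W.map (snd A Z) z) =
      L' (W.map (fst A Z) a * W.map (snd A Z) z)) : L = L' :=
  LinearMap.ext (kun_ext (fun a b => map_add _ _ _) (fun a b => map_add _ _ _) h)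

section act

variable {A Z : 𝒱.Obj} {Γ : Type} [Group Γ] {χ : Γ →* W.Kˣ}
  {ρ : Γ →* (W.H A ≃ₐ[W.K] W.H A)} {τ : Γ →* (W.H Z ≃ₐ[W.K] W.H Z)}
  {υ : Γ →* (W.H (A.prod Z) ≃ₐ[W.K] W.H (A.prod Z))}
  (h1 : ∀ g a, υ g (W.map (fst A Z) a) = W.map (fst A Z) (ρ g a))
  (h2 : ∀ g z, υ g (W.map (snd A Z) z) = W.map (snd A Z) (τ g z))

include h1 h2

theorem act_ext (g : Γ) (a : W.H A) (z : W.H Z) :
    υ g (W.map (fst A Z) a * W.map (snd A Z) z) =
      W.map (fst A Z) (ρ g a) * W.map (snd A Z) (τ g z) := by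
  rw [map_mul, h1, h2]

/-- The eigenvalues on the product are products of eigenvalues. -/
theorem eig_prod [IsAlgClosed W.K] {g : Γ} {w : W.Kˣ} (hw : IsEigenvalueOn υ g ⊤ w) :
    ∃ x y : W.Kˣ, w = x * y ∧ IsEigenvalueOn ρ g ⊤ x ∧ IsEigenvalueOn τ g ⊤ y := by
  obtain ⟨c, -, hc, hcw⟩ := hw
  let R : End W.K (W.H A) := (ρ g).toLinearMap
  let S : End W.K (W.H Z) := (τ g).toLinearMap
  have e1 : tmap R (1 : End W.K (W.H Z)) * tmap (1 : End W.K (W.H A)) S =
      (υ g).toLinearMap := by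
    refine lin_ext fun a z => ?_
    rw [End.mul_apply, tmap_apply, tmap_apply]
    exact (act_ext h1 h2 g a z).symm
  have e2 : tmap (1 : End W.K (W.H A)) S * tmap R (1 : End W.K (W.H Z)) =
      (υ g).toLinearMap := by
    refine lin_ext fun a z => ?_
    rw [End.mul_apply, tmap_apply, tmap_apply]
    exact (act_ext h1 h2 g a z).symm
  obtain ⟨x, y, hxy, ⟨c1, hc1, hx⟩, ⟨c2, hc2, hy⟩⟩ := eig_mul (e1.trans e2.symm) (w := (w : W.K))
    hc (by rw [e1]; exact hcw)
  have hx0 : x ≠ 0 := fun h => w.ne_zero (by rw [hxy, h, zero_mul])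
  have hy0 : y ≠ 0 := fun h => w.ne_zero (by rw [hxy, h, mul_zero])
  refine ⟨Units.mk0 x hx0, Units.mk0 y hy0, Units.ext hxy, ?_, ?_⟩
  · let b := Module.finBasis W.K (W.H Z)
    obtain ⟨r, hr⟩ : ∃ r, ctr2 (b.coord r) c1 ≠ 0 := by
      by_contra hcon
      push Not at hcon
      apply hc1
      rw [expand2 b c1]
      exact Finset.sum_eq_zero fun r _ => by rw [hcon r, map_zero, zero_mul]
    have h3 : ctr2 (b.coord r) ∘ₗ tmap R (1 : End W.K (W.H Z)) = R ∘ₗ ctr2 (b.coord r) := by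
      refine lin_ext fun a z => ?_
      rw [LinearMap.comp_apply, LinearMap.comp_apply, tmap_apply, ctr2_apply, ctr2_apply, map_smul]
      rfl
    refine ⟨_, trivial, hr, ?_⟩
    have h4 := congrArg (fun f => f c1) h3
    simp only [LinearMap.comp_apply] at h4
    rw [hx, map_smul] at h4
    exact h4.symm
  · let b := Module.finBasis W.K (W.H A)
    obtain ⟨r, hr⟩ : ∃ r, ctr (b.coord r) c2 ≠ 0 := by
      by_contra hcon
      push Not at hcon
      apply hc2
      rw [expand b c2]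
      exact Finset.sum_eq_zero fun r _ => by rw [hcon r, map_zero, mul_zero]
    have h3 : ctr (b.coord r) ∘ₗ tmap (1 : End W.K (W.H A)) S = S ∘ₗ ctr (b.coord r) := by
      refine lin_ext fun a z => ?_
      rw [LinearMap.comp_apply, LinearMap.comp_apply, tmap_apply, ctr_apply, ctr_apply, map_smul]
      rfl
    refine ⟨_, trivial, hr, ?_⟩
    have h4 := congrArg (fun f => f c2) h3
    simp only [LinearMap.comp_apply] at h4
    rw [hy, map_smul] at h4
    exact h4.symm

/-- The product action respects the degrees. -/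
theorem graded_prod (hρ : ∀ g i, ∀ a ∈ W.gr A i, ρ g a ∈ W.gr A i)
    (hτ : ∀ g i, ∀ a ∈ W.gr Z i, τ g a ∈ W.gr Z i) :
    ∀ g i, ∀ a ∈ W.gr (A.prod Z) i, υ g a ∈ W.gr (A.prod Z) i := by
  intro g i c hc
  have h3 : ∀ c, υ g (proj (W.isInternal (A.prod Z)) i c) =
      proj (W.isInternal (A.prod Z)) i (υ g c) := by
    intro c
    refine W.kunneth_induction (p := fun c => υ g (proj (W.isInternal (A.prod Z)) i c) =
      proj (W.isInternal (A.prod Z)) i (υ g c)) ?_ ?_ c
    · intro a b ha hb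
      rw [map_add, map_add, map_add, map_add, ha, hb]
    · intro l m a ha z hz
      rw [act_ext h1 h2, proj_ext ha, proj_ext (hρ g l a ha)]
      by_cases h : l ≤ i
      · rw [if_pos h, if_pos h, act_ext h1 h2]
        congr 2
        by_cases h' : m = i - l
        · subst h'
          rw [proj_same _ hz, proj_same _ (hτ g _ z hz)]
        · rw [proj_ne _ hz h', proj_ne _ (hτ g _ z hz) h', map_zero]
      · rw [if_neg h, if_neg h, map_zero]
  have h4 := h3 c
  rw [proj_same _ hc] at h4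
  rw [h4]
  exact proj_mem _ _ _

end act

end Pool.Agent.H621.AF
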