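import Pool.Agent.H621.AF.Pub3

/-!
# Divisor classes of positive degree: definitions
-/

open CategoryTheory AlgebraicGeometry

universe u

namespace Pool.Agent.H621.AF

/-- The number `tr (d ^ n)` is rational and positive. -/
def IsPositiveElt {K A : Type} [Field K] [Ring A] [Algebra K A] (tr : A →ₗ[K] K) (n : ℕ)
    (d : A) : Prop := ∃ q : ℚ, 0 < q ∧ tr (d ^ n) = q

open Pool.Agent.TH125.Gal
open Pool.Agent.H914 Pool.Agent.H914.VarClass Pool.Agent.H914.VarClass.Obj

variable {k : Type u} [Field k] {𝒱 : VarClass k} {ops : CycleOps 𝒱}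
  {W : WeilCohomology.{u, 0} ops} {Γ : Type} [Group Γ]

/-- The class is the class of a divisor which satisfies the hard Lefschetz theorem, and its degree, the
number `tr (c ^ dim X)`, is positive. -/
def PVar.IsPolarization (X : PVar W Γ) : Prop :=
  X.IsLefschetz ∧ IsPositiveElt (W.tr X.V.X) X.V.X.dim X.c

end Pool.Agent.H621.AF
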