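import Pool.Agent.H621.AF.Aye
import Pool.Agent.H621.AF.Pub4
import Pool.Agent.TH132.A.Hodge

/-!
# The conjecture of Hodge type for the products with the members outside of the exceptional set
-/

open CategoryTheory AlgebraicGeometry Finset Module

set_option linter.unusedSectionVars false

universe u

namespace Pool.Agent.H621.AF

open Pool.Agent.TH125.Gal
open Pool.Agent.H914 Pool.Agent.H914.VarClass Pool.Agent.H914.VarClass.Obj
  Pool.Agent.H914.WeilCohomology Pool.Agent.H281R3.HT Pool.Agent.W552 Pool.Agent.TH132.A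

variable {k : Type u} [Field k] {𝒱 : VarClass k} {ops : CycleOps 𝒱}
  {W : WeilCohomology.{u, 0} ops}

theorem hodgeElt_iff {X : 𝒱.Obj} {D : X.Cycles} (hD : X.IsCyc 1 D) :
    HodgeElt (W.tr X) (algClasses W X) X.dim (W.cl X D) ↔ Pool.Agent.H914.HodgeType W X D := by
  have hpow : ∀ i z, W.cl X (divPow ops D i z) = (W.cl X D) ^ i * W.cl X z := fun i z => by
    rw [cl_divPow, LinearMap.pow_mulLeft, LinearMap.mulLeft_apply]
  have hdeg : ∀ j, 2 * j ≤ X.dim → ∀ z, X.IsCyc j z →
      W.tr X (W.cl X z * ((W.cl X D) ^ (X.dim - 2 * j) * W.cl X z)) =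
        ((X.V.degCycle (ops.mul z (divPow ops D (X.dim - 2 * j) z)) : ℚ) : W.K) := by
    intro j hj z hz
    have e1 := ops.mul_mem hz (divPow_mem (ops := ops) hD (X.dim - 2 * j) hz)
    rw [show j + (j + (X.dim - 2 * j)) = X.dim by omega] at e1
    rw [← W.tr_cl e1, W.cl_mul, hpow]
  have hone : ∀ j : ℕ, ((-1 : ℚ) ^ j) * (-1) ^ j = 1 := fun j => by
    rw [← mul_pow]
    simp
  constructor
  · intro h j hj z hz h0 hz0
    obtain ⟨q, hq, h1⟩ := h j hj _ ⟨z, hz, rfl⟩ (by rw [← hpow, h0]) hz0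
    rw [hdeg j hj z hz] at h1
    have h2 : (X.V.degCycle (ops.mul z (divPow ops D (X.dim - 2 * j) z)) : ℚ) = (-1) ^ j * q := by
      apply Rat.cast_injective (α := W.K)
      rw [h1]
      push_cast
      ring
    rw [h2, ← mul_assoc, hone, one_mul]
    exact hq
  · rintro h j hj _ ⟨z, hz, rfl⟩ h0 hz0
    refine ⟨_, h j hj z hz (by rw [hpow, h0]) hz0, ?_⟩
    rw [hdeg j hj z hz]
    have h3 := hone j
    have h4 : ((-1 : W.K) ^ j) * (-1) ^ j = 1 := by
      rw [← mul_pow]
      simp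
    push_cast
    rw [← mul_assoc, h4, one_mul]

section swap

variable {A Z : 𝒱.Obj}

/-- The exchange of the factors does not change the orientation. -/
theorem tr_swap (z : W.H (Z.prod A)) : W.tr (A.prod Z) (W.map (swap A Z) z) =
    W.tr (Z.prod A) z := by
  refine W.kunneth_induction (p := fun z => W.tr (A.prod Z) (W.map (swap A Z) z) =
    W.tr (Z.prod A) z) ?_ ?_ z
  · intro a b ha hb
    rw [map_add, map_add, map_add, ha, hb]
  · intro i j y hy x hx
    have e1 : W.map (swap A Z) (W.map (fst Z A) y * W.map (snd Z A) x) =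
        W.map (snd A Z) y * W.map (fst A Z) x := by
      rw [map_mul, ← W.map_comp, ← W.map_comp, swap, lift_fst, lift_snd]
    rw [e1, W.comm (W.map_mem (snd A Z) hy) (W.map_mem (fst A Z) hx), map_smul, W.tr_prod,
      W.tr_prod]
    by_cases hi : i = 2 * Z.dim
    · subst hi
      rw [show (-1 : W.K) ^ (2 * Z.dim * j) = 1 by rw [mul_assoc, pow_mul]; simp, one_smul,
        mul_comm]
    · rw [W.tr_eq_zero hy hi, zero_mul, mul_zero, smul_zero]

theorem swap_alg {j : ℕ} {c : W.H (Z.prod A)} (hc : c ∈ algClasses W (Z.prod A) j) :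
    W.map (swap A Z) c ∈ algClasses W (A.prod Z) j := alg_map _ hc

/-- The conjecture of Hodge type does not depend on the order of the factors. -/
theorem hodge_swap {d : W.H (Z.prod A)}
    (h : HodgeElt (W.tr (Z.prod A)) (algClasses W (Z.prod A)) (Z.prod A).dim d) :
    HodgeElt (W.tr (A.prod Z)) (algClasses W (A.prod Z)) (A.prod Z).dim
      (W.map (swap A Z) d) := by
  have hdim : (A.prod Z).dim = (Z.prod A).dim := by
    rw [dim_prod, dim_prod, add_comm]
  rw [hdim]
  intro j hj c hc h0 hc0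
  have h1 : ∀ c : W.H (A.prod Z), W.map (swap A Z) (W.map (swap Z A) c) = c :=
    fun c => map_swap_swap c
  have hinj : ∀ x : W.H (Z.prod A), W.map (swap A Z) x = 0 → x = 0 := fun x hx => by
    rw [← map_swap_swap x, hx, map_zero]
  obtain ⟨q, hq, h2⟩ := h j hj (W.map (swap Z A) c) (swap_alg hc) (hinj _ (by
    rw [map_mul, map_pow, h1, h0])) (fun h3 => hc0 (by rw [← h1 c, h3, map_zero]))
  refine ⟨q, hq, ?_⟩
  have h3 : W.map (swap A Z) (W.map (swap Z A) c * (d ^ ((Z.prod A).dim - 2 * j) *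
      W.map (swap Z A) c)) = c * (W.map (swap A Z) d ^ ((Z.prod A).dim - 2 * j) * c) := by
    rw [map_mul, map_mul, map_pow, h1]
  rw [← h3, tr_swap]
  exact h2

theorem swap_sum (d : W.H A) (e : W.H Z) :
    W.map (swap A Z) (W.map (fst Z A) e + W.map (snd Z A) d) =
      W.map (fst A Z) d + W.map (snd A Z) e := by
  rw [map_add, ← W.map_comp, ← W.map_comp, swap, lift_fst, lift_snd, add_comm]

end swap

section step

variable {X U : 𝒱.Obj} {D : X.Cycles} {B : U.Cycles} {f : Module.End W.K (W.H X)}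
  {g : Module.End W.K (W.H U)}

/-- The value of the form on the unit. -/
theorem pos_iff (tf : Lw W X D f) : (∃ q : ℚ, 0 < q ∧ bf W X D f 1 1 = q) ↔
    IsPositiveElt (W.tr X) X.dim (W.cl X D) := by
  have hp : W.cl X (divPow ops D (X.dim - 2 * 0 + 1) X.V.fundCycle) = 0 := by
    rw [cl_divPow, W.cl_fund]
    exact e_pow_zero tf.hD (i := 0) (by omega) (W.one_mem X)
  have h2 := tf.form_prim (j := 0) (by omega) X.V.fundCycle_mem hp
  rw [W.cl_fund, Nat.mul_zero, Nat.sub_zero, pow_zero, one_mul] at h2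
  have hfac : (0 : ℚ) < ((X.dim).factorial : ℚ)⁻¹ := by positivity
  have h3 : W.tr X (W.cl X D ^ X.dim) = ((X.V.degCycle (ops.mul X.V.fundCycle
      (divPow ops D X.dim X.V.fundCycle)) : ℚ) : W.K) := by
    have e1 := ops.mul_mem X.V.fundCycle_mem
      (divPow_mem (ops := ops) tf.hD X.dim X.V.fundCycle_mem)
    rw [zero_add, zero_add] at e1
    rw [← W.tr_cl e1, W.cl_mul, cl_divPow, W.cl_fund, one_mul, LinearMap.pow_mulLeft,
      LinearMap.mulLeft_apply, mul_one]
  constructor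
  · rintro ⟨q, hq, h4⟩
    rw [h2] at h4
    have h5 := Rat.cast_injective (α := W.K) h4
    refine ⟨_, ?_, h3⟩
    rw [← h5] at hq
    exact pos_of_mul_pos_right hq hfac.le
  · rintro ⟨q, hq, h4⟩
    rw [h3] at h4
    have h5 := Rat.cast_injective (α := W.K) h4
    refine ⟨_, ?_, h2⟩
    rw [h5]
    exact mul_pos hfac hq

/-- **The conjecture of Hodge type for the product implies it for the second factor**, if the first
factor has positive degree. -/
theorem hodge_of_prod' (tf : Lw W X D f) (tg : Lw W U B g)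
    (hpos : ∃ q : ℚ, 0 < q ∧ bf W X D f 1 1 = q) (h1 : (1 : W.H X) ≠ 0)
    (hH : Pool.Agent.H914.HodgeType W (X.prod U)
      (ops.pull (fst X U) D + ops.pull (snd X U) B)) :
    Pool.Agent.H914.HodgeType W U B := by
  intro j hj z hz hprim hz0
  have F := tf.prod tg
  set y := ops.pull (snd X U) z with hy
  have hyc : (X.prod U).IsCyc j y := ops.pull_mem _ hz
  have hycl : W.cl (X.prod U) y = H281R3.HT.ext W (1 : W.H X) (W.cl U z) := by
    rw [hy, W.cl_pull, H281R3.HT.ext, map_one, one_mul]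
  have hj' : 2 * j ≤ (X.prod U).dim := by rw [dim_prod]; omega
  have hDE : W.cl (X.prod U) (ops.pull (fst X U) D + ops.pull (snd X U) B) =
      W.map (fst X U) (W.cl X D) + W.map (snd X U) (W.cl U B) := by
    rw [map_add, W.cl_pull, W.cl_pull]
  have hyp : W.cl (X.prod U) (divPow ops (ops.pull (fst X U) D + ops.pull (snd X U) B)
      ((X.prod U).dim - 2 * j + 1) y) = 0 := by
    rw [cl_divPow, hycl, theta_pow tg.hD hDE]
    refine Finset.sum_eq_zero fun i hi => ?_
    have hi' := Finset.mem_range.1 hi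
    rw [dim_prod] at hi' ⊢
    by_cases h2 : X.dim < i
    · rw [e_pow_zero (W := W) tf.hD (i := 0) (by omega) (W.one_mem X)]
      simp [H281R3.HT.ext]
    · rw [show X.dim + U.dim - 2 * j + 1 - i = (X.dim - i) + (U.dim - 2 * j + 1) by omega,
        pow_add, Module.End.mul_apply, ← cl_divPow, hprim, map_zero]
      simp [H281R3.HT.ext]
  have hy0 : W.cl (X.prod U) y ≠ 0 := by
    rw [hycl]
    intro h0
    exact hz0 (one_ext_inj h1 h0)
  obtain ⟨q, hq, hq'⟩ := hpos
  have h2 := F.form_prim hj' hyc hyp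
  have h3 := hH j hj' y hyc hyp hy0
  rw [hycl, tf.bf_ext tg, hq', tg.form_prim hj hz hprim, ← Rat.cast_mul] at h2
  have h4 := Rat.cast_injective (α := W.K) h2
  have h5 : 0 < q * ((-1) ^ j * (((U.dim - 2 * j).factorial : ℚ)⁻¹ *
        U.V.degCycle (ops.mul z (divPow ops B (U.dim - 2 * j) z)))) := by
    rw [h4, mul_left_comm]
    exact mul_pos (by positivity) h3
  have h6 := pos_of_mul_pos_right h5 hq.le
  rw [mul_left_comm] at h6
  exact pos_of_mul_pos_right h6 (by positivity)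

/-- **The conjecture of Hodge type for a product on which the cycles split.** -/
theorem hodge_step (hS : ClSplit W X U) (hD : X.IsCyc 1 D) (hE : U.IsCyc 1 B)
    (hHX : HardLefschetz W X D) (hHU : HardLefschetz W U B) (hX1 : (1 : W.H X) ≠ 0)
    (hU1 : (1 : W.H U) ≠ 0) (hXp : IsPositiveElt (W.tr X) X.dim (W.cl X D))
    (hUp : IsPositiveElt (W.tr U) U.dim (W.cl U B)) (hor : HomEqNum W X ∨ HomEqNum W U) :
    IsPositiveElt (W.tr (X.prod U)) (X.prod U).dim
        (W.cl _ (ops.pull (fst X U) D + ops.pull (snd X U) B)) ∧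
      (Pool.Agent.H914.HodgeType W (X.prod U) (ops.pull (fst X U) D + ops.pull (snd X U) B) ↔
        Pool.Agent.H914.HodgeType W U B ∧ Pool.Agent.H914.HodgeType W X D) := by
  obtain ⟨f, tf, hf⟩ := exists_lw hD hHX
  obtain ⟨g, tg, hg⟩ := exists_lw hE hHU
  have hC : (X.prod U).IsCyc 1 (ops.pull (fst X U) D + ops.pull (snd X U) B) :=
    SmVar.IsCyc.add (ops.pull_mem _ hD) (ops.pull_mem _ hE)
  have hC' : (U.prod X).IsCyc 1 (ops.pull (fst U X) B + ops.pull (snd U X) D) :=
    SmVar.IsCyc.add (ops.pull_mem _ hE) (ops.pull_mem _ hD)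
  have hswap : Pool.Agent.H914.HodgeType W (X.prod U)
      (ops.pull (fst X U) D + ops.pull (snd X U) B) ↔
      Pool.Agent.H914.HodgeType W (U.prod X) (ops.pull (fst U X) B + ops.pull (snd U X) D) := by
    rw [← hodgeElt_iff hC, ← hodgeElt_iff hC', map_add, map_add, W.cl_pull, W.cl_pull,
      W.cl_pull, W.cl_pull]
    constructor
    · intro h
      have h2 := hodge_swap (A := U) (Z := X) h
      rwa [swap_sum] at h2
    · intro h
      have h2 := hodge_swap (A := X) (Z := U) h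
      rwa [swap_sum] at h2
  refine ⟨?_, ⟨fun h => ⟨hodge_of_prod' tf tg ((pos_iff tf).2 hXp) hX1 h,
    hodge_of_prod' tg tf ((pos_iff tg).2 hUp) hU1 (hswap.1 h)⟩, ?_⟩⟩
  · rw [← pos_iff (tf.prod tg)]
    obtain ⟨q, hq, hq'⟩ := (pos_iff tf).2 hXp
    obtain ⟨r, hr, hr'⟩ := (pos_iff tg).2 hUp
    refine ⟨q * r, mul_pos hq hr, ?_⟩
    have h1 := tf.bf_ext tg (1 : W.H X) 1 (1 : W.H U) 1
    rw [hq', hr', show H281R3.HT.ext W (1 : W.H X) (1 : W.H U) = 1 by
      rw [H281R3.HT.ext, map_one, map_one, mul_one]] at h1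
    rw [h1, Rat.cast_mul]
  · rintro ⟨hHU', hHX'⟩
    rcases hor with hor | hor
    · exact hodge_prod_of (fun z hz => tens_of_clSplit hS hz) tf hf hHX
        (stable_of_lefschetzA hD tf.sl2 (lefschetzA_of_D hD hHX hor)) hHX' tg hg hHU'
    · refine hswap.2 (hodge_prod_of (fun z hz => ?_) tg hg hHU
        (stable_of_lefschetzA hE tg.sl2 (lefschetzA_of_D hE hHU hor)) hHU' tf hf hHX')
      have h1 := swap_tens (A := U) (Z := X) (tens_of_clSplit hS (hz.map (swap X U)))
      rwa [map_swap_swap] at h1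

end step

section twr

variable {Γ : Type} [Group Γ] {χ : Γ →* W.Kˣ} {P : FinRep W.K Γ} {J : Type}
  {F : J → Set (GVar W Γ)}

/-- **The conjecture of Hodge type for towers.** -/
theorem hodge_tower [IsAlgClosed W.K] (hF : IndependentFamily χ F) {S : Finset J}
    (hS : ∀ B : Finset J, ∀ i, i ∉ (S : Set J) ∪ B → ¬ LinkedTo χ P F ((S : Set J) ∪ B) i)
    {Z : PVar W Γ} (hZd : RespectsDegrees Z.V) (hZp : HasPoint Z.V)
    (hZ : EigenvaluesFrom χ P F S Z.V) (hcl : ∀ l Y, IsTower F Z.V l Y → RespectsCycles χ Y)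
    {l : List (J × PVar W Γ)} {Y : PVar W Γ} (hY : IsSumTower F Z l Y) (hl : ∀ p ∈ l, p.1 ∉ S)
    (hK : KnownForAllButOne χ Z.V (forget l)) (hZL : Z.IsPolarization)
    (hlL : ∀ p ∈ l, p.2.IsPolarization) :
    Y.IsPolarization ∧ (Y.HodgeType ↔ Z.HodgeType ∧ ∀ p ∈ l, p.2.HodgeType) := by
  induction hY with
  | base => exact ⟨hZL, by simp⟩
  | @step l Y Y' i X hT hi hX hP ih =>
    have hl' : ∀ p ∈ (i, X.V) :: forget l, p.1 ∉ S := by
      intro p hp
      rcases List.mem_cons.1 hp with rfl | hp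
      · exact hl (i, X) List.mem_cons_self
      · obtain ⟨q, hq, rfl⟩ := List.mem_map.1 hp
        exact hl q (List.mem_cons_of_mem _ hq)
    have hi' : ∀ p ∈ forget l, p.1 ≠ i := by
      intro p hp
      obtain ⟨q, hq, rfl⟩ := List.mem_map.1 hp
      exact hi q hq
    obtain ⟨⟨hYL, hYpos⟩, hYA⟩ := ih (fun p hp => hl p (List.mem_cons_of_mem _ hp)) hK.tail
      (fun p hp => hlL p (List.mem_cons_of_mem _ hp))
    have hspl := clSplit_step hF hS hZd hZp hZ hcl hT.tower hl' hi' hX hP.1 hK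
    have hor := known_or hF hS hZd hZp hZ hcl hT.tower
      (fun p hp => hl' p (List.mem_cons_of_mem _ hp)) hi' hK
    obtain ⟨-, -, hYp⟩ := tower_props hF hZd hZ hT.tower
    obtain ⟨hXL, hXpos⟩ := hlL (i, X) List.mem_cons_self
    have hgoal : Y'.IsPolarization ∧ (Y'.HodgeType ↔ Y.HodgeType ∧ X.HodgeType) := by
      obtain ⟨⟨YX, υ⟩, c⟩ := Y'
      obtain ⟨⟨h0, h1, h2⟩, h0', hc⟩ := hP
      change YX = X.V.X.prod Y.V.X at h0
      subst h0
      rw [addPull] at hc
      simp only [eqToHom_refl, Category.id_comp] at hc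
      obtain ⟨D, hDc, hD, hDL⟩ := isHard_iff.1 hXL
      obtain ⟨E, hEc, hE, hEL⟩ := isHard_iff.1 hYL
      have hC : W.cl (X.V.X.prod Y.V.X)
          (ops.pull (fst X.V.X Y.V.X) D + ops.pull (snd X.V.X Y.V.X) E) = c := by
        rw [map_add, W.cl_pull, W.cl_pull, hDc, hEc]
        exact hc.symm
      have hCc : (X.V.X.prod Y.V.X).IsCyc 1
          (ops.pull (fst X.V.X Y.V.X) D + ops.pull (snd X.V.X Y.V.X) E) :=
        SmVar.IsCyc.add (ops.pull_mem _ hD) (ops.pull_mem _ hE)
      rw [← hDc] at hXpos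
      rw [← hEc] at hYpos
      obtain ⟨h3, h4⟩ := hodge_step hspl hD hE hDL hEL (one_ne_of_point (hF.point i X.V hX))
        (one_ne_of_point (hYp hZp)) hXpos hYpos
        (hor.imp (fun h => conjectureD_iff.1 h.2) (fun h => conjectureD_iff.1 h.2))
      rw [← hodgeElt_iff hCc, ← hodgeElt_iff hD, ← hodgeElt_iff hE, hC, hDc, hEc] at h4
      rw [hC] at h3
      exact ⟨⟨isHard_iff.2 ⟨_, hC, hCc, hardLefschetz_prod hD hE hDL hEL⟩, h3⟩, h4⟩
    refine ⟨hgoal.1, ?_⟩
    rw [hgoal.2, hYA, and_assoc]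
    refine and_congr_right fun _ => ?_
    constructor
    · rintro ⟨h1, h2⟩ p hp
      rcases List.mem_cons.1 hp with rfl | hp
      · exact h2
      · exact h1 p hp
    · intro h
      exact ⟨fun p hp => h p (List.mem_cons_of_mem _ hp), h (i, X) List.mem_cons_self⟩

end twr

end Pool.Agent.H621.AF
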