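import Pool.Agent.H621.AF.Defs

/-!
# The group of the eigenvalues modulo the roots of the powers of the character
-/

set_option autoImplicit false

namespace Pool.Agent.H621.AF

variable {K : Type} [Field K]

/-- The elements near to the powers of `c`. -/
def satur (c : Kˣ) : Submodule ℤ (Additive Kˣ) where
  carrier := {x | Near c x.toMul}
  zero_mem' := ⟨1, one_pos, by simp⟩
  add_mem' := by
    rintro x y ⟨n, hn, hx⟩ ⟨m, hm, hy⟩
    refine ⟨n * m, Nat.mul_pos hn hm, ?_⟩
    rw [toMul_add, mul_pow, pow_mul, mul_comm n m, pow_mul y.toMul]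
    exact mul_mem (pow_mem hx m) (pow_mem hy n)
  smul_mem' := by
    rintro e x ⟨n, hn, hx⟩
    refine ⟨n, hn, ?_⟩
    rw [toMul_zsmul, ← zpow_natCast, ← zpow_mul, mul_comm, zpow_mul, zpow_natCast]
    exact zpow_mem hx e

theorem mem_satur {c x : Kˣ} : Additive.ofMul x ∈ satur c ↔ Near c x := Iff.rfl

/-- The quotient. -/
abbrev Mq (c : Kˣ) : Type := Additive Kˣ ⧸ satur c

/-- The image of `x`. -/
def cls (c : Kˣ) (x : Kˣ) : Mq c := (satur c).mkQ (Additive.ofMul x)

theorem cls_eq_zero {c x : Kˣ} : cls c x = 0 ↔ Near c x := by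
  rw [cls, Submodule.mkQ_apply, Submodule.Quotient.mk_eq_zero, mem_satur]

theorem cls_mul (c x y : Kˣ) : cls c (x * y) = cls c x + cls c y := by
  rw [cls, ofMul_mul, map_add]; rfl

theorem cls_inv (c x : Kˣ) : cls c x⁻¹ = - cls c x := by
  rw [cls, ofMul_inv, map_neg]; rfl

theorem cls_zpow (c x : Kˣ) (e : ℤ) : cls c (x ^ e) = e • cls c x := by
  rw [cls, ofMul_zpow, map_zsmul]; rfl

theorem cls_pow (c x : Kˣ) (e : ℕ) : cls c (x ^ e) = (e : ℤ) • cls c x := by
  rw [← zpow_natCast, cls_zpow]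

theorem cls_self (c : Kˣ) : cls c c = 0 :=
  cls_eq_zero.2 ⟨1, one_pos, by rw [pow_one]; exact Subgroup.mem_zpowers c⟩

/-- The quotient is torsion free. -/
theorem smul_cls {c : Kˣ} {e : ℤ} (he : e ≠ 0) {v : Mq c} (h : e • v = 0) : v = 0 := by
  obtain ⟨x, rfl⟩ := (satur c).mkQ_surjective v
  rw [← map_zsmul, Submodule.mkQ_apply, Submodule.Quotient.mk_eq_zero] at h
  rw [Submodule.mkQ_apply, Submodule.Quotient.mk_eq_zero]
  obtain ⟨n, hn, hx⟩ := h
  rw [toMul_zsmul] at hx
  have h1 : (x.toMul ^ (e.natAbs * n)) ∈ Subgroup.zpowers c := by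
    rcases Int.natAbs_eq e with h | h
    · rw [h] at hx
      rw [zpow_natCast, ← pow_mul] at hx
      simpa using hx
    · rw [h] at hx
      rw [zpow_neg, zpow_natCast, inv_pow, inv_mem_iff, ← pow_mul] at hx
      simpa using hx
  exact ⟨e.natAbs * n, Nat.mul_pos (Int.natAbs_pos.2 he) hn, h1⟩

/-- The span of the images of the elements of `E`. -/
def spn (c : Kˣ) (E : Set Kˣ) : Submodule ℤ (Mq c) := Submodule.span ℤ (cls c '' E)

theorem cls_mem_spn {c : Kˣ} {E : Set Kˣ} {x : Kˣ} (hx : x ∈ Subgroup.closure E) :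
    cls c x ∈ spn c E := by
  induction hx using Subgroup.closure_induction with
  | mem x hx => exact Submodule.subset_span ⟨x, hx, rfl⟩
  | one =>
    have : cls c 1 = 0 := cls_eq_zero.2 ⟨1, one_pos, by simp⟩
    rw [this]; exact Submodule.zero_mem _
  | mul x y _ _ hx hy => rw [cls_mul]; exact Submodule.add_mem _ hx hy
  | inv x _ hx => rw [cls_inv]; exact Submodule.neg_mem _ hx

theorem exists_of_mem_spn {c : Kˣ} {E : Set Kˣ} {v : Mq c} (hv : v ∈ spn c E) :
    ∃ x ∈ Subgroup.closure E, cls c x = v := by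
  induction hv using Submodule.span_induction with
  | mem v hv =>
    obtain ⟨x, hx, rfl⟩ := hv
    exact ⟨x, Subgroup.subset_closure hx, rfl⟩
  | zero => exact ⟨1, one_mem _, cls_eq_zero.2 ⟨1, one_pos, by simp⟩⟩
  | add v w _ _ hv hw =>
    obtain ⟨x, hx, rfl⟩ := hv
    obtain ⟨y, hy, rfl⟩ := hw
    exact ⟨x * y, mul_mem hx hy, cls_mul c x y⟩
  | smul e v _ hv =>
    obtain ⟨x, hx, rfl⟩ := hv
    exact ⟨x ^ e, zpow_mem hx e, cls_zpow c x e⟩

/-- Elements of the group generated by `E`, `c ^ m` and the `E' j`, `j ∈ B`. -/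
theorem cls_mem_sup {J : Type} {c c' : Kˣ} (hc : cls c c' = 0) {E : Set Kˣ} {E' : J → Set Kˣ}
    {B : Set J} {x : Kˣ}
    (hx : x ∈ Subgroup.closure ({c'} ∪ E ∪ ⋃ j ∈ B, E' j)) :
    cls c x ∈ spn c E ⊔ ⨆ j ∈ B, spn c (E' j) := by
  have h1 := cls_mem_spn (c := c) hx
  refine Submodule.span_le.2 ?_ h1
  rintro _ ⟨y, (hy | hy) | hy, rfl⟩
  · rw [Set.mem_singleton_iff] at hy
    subst hy
    rw [hc]
    exact Submodule.zero_mem _
  · exact Submodule.mem_sup_left (Submodule.subset_span ⟨y, hy, rfl⟩)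
  · obtain ⟨j, hj, hy⟩ := Set.mem_iUnion₂.1 hy
    exact Submodule.mem_sup_right (Submodule.mem_iSup_of_mem j (Submodule.mem_iSup_of_mem hj
      (Submodule.subset_span ⟨y, hy, rfl⟩)))

/-- Independence. -/
theorem disjoint_of_indep {J : Type} [DecidableEq J] {c : Kˣ} {E : J → Set Kˣ} {A : Finset J}
    (hA : IndependentModulo c E A) {B : Finset J} {i : J} (hi : i ∉ B) (hB : insert i B ⊆ A) :
    Disjoint (spn c (E i)) (⨆ j ∈ (B : Set J), spn c (E j)) := by
  rw [Submodule.disjoint_def]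
  intro v hv hv'
  obtain ⟨x, hx, rfl⟩ := exists_of_mem_spn hv
  have hv'' : cls c x ∈ ⨆ j ∈ B, spn c (E j) := by simpa using hv'
  obtain ⟨w, hw⟩ := (Submodule.mem_iSup_finset_iff_exists_sum (s := B)
    (p := fun j => spn c (E j)) _).1 hv''
  choose y hy hyw using fun j => exists_of_mem_spn (w j).2
  have hiA : i ∈ A := hB (Finset.mem_insert_self _ _)
  have h1 := hA (fun j => if j = i then x⁻¹ else if j ∈ B then y j else 1) ?_ ?_ i hiA
  · rw [if_pos rfl] at h1
    rw [← neg_eq_zero, ← cls_inv]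
    exact cls_eq_zero.2 h1
  · intro j hj
    beta_reduce
    by_cases h : j = i
    · subst h
      rw [if_pos rfl]
      exact inv_mem hx
    · rw [if_neg h]
      by_cases h' : j ∈ B
      · rw [if_pos h']
        exact hy j
      · rw [if_neg h']
        exact one_mem _
  · rw [← cls_eq_zero]
    have h2 : ∀ (s : Finset J) (z : J → Kˣ), cls c (∏ j ∈ s, z j) = ∑ j ∈ s, cls c (z j) := by
      intro s z
      classical
      induction s using Finset.induction_on with
      | empty =>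
        rw [Finset.prod_empty, Finset.sum_empty]
        exact cls_eq_zero.2 ⟨1, one_pos, by simp⟩
      | insert a s ha ih => rw [Finset.prod_insert ha, Finset.sum_insert ha, cls_mul, ih]
    rw [h2, ← Finset.sum_subset hB]
    · rw [Finset.sum_insert hi]
      beta_reduce
      rw [if_pos rfl, cls_inv]
      have h3 : ∑ j ∈ B, cls c (if j = i then x⁻¹ else if j ∈ B then y j else 1) = cls c x := by
        rw [← hw]
        refine Finset.sum_congr rfl fun j hj => ?_
        have hji : j ≠ i := fun h => hi (h ▸ hj)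
        rw [if_neg hji, if_pos hj, hyw]
      rw [h3, neg_add_cancel]
    · intro j _ hj
      have h4 : j ≠ i := fun h => hj (h ▸ Finset.mem_insert_self _ _)
      have h5 : j ∉ B := fun h => hj (Finset.mem_insert_of_mem h)
      beta_reduce
      rw [if_neg h4, if_neg h5]
      exact cls_eq_zero.2 ⟨1, one_pos, by simp⟩

/-- The linear algebra of one step. -/
theorem indep_step {c : Kˣ} {m : ℕ} {z : Fin m → Mq c} (hz : LinearIndependent ℤ z)
    {L L' : Submodule ℤ (Mq c)} (hL : Disjoint L L') (hzL : ∀ l, z l ∈ L') {w x : Mq c}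
    (hx : x ∈ L) (hx0 : x ≠ 0) (hw : w + x ∈ L') :
    LinearIndependent ℤ (Fin.snoc z w : Fin (m + 1) → Mq c) := by
  rw [Fintype.linearIndependent_iff] at hz ⊢
  intro a ha
  rw [Fin.sum_univ_castSucc] at ha
  simp only [Fin.snoc_castSucc, Fin.snoc_last] at ha
  have h1 : a (Fin.last m) • x ∈ L' := by
    have h2 : a (Fin.last m) • x = a (Fin.last m) • (w + x) +
        ∑ l, a (Fin.castSucc l) • z l := by
      have h3 : a (Fin.last m) • w = - ∑ l, a (Fin.castSucc l) • z l := by
        rw [eq_neg_iff_add_eq_zero, add_comm]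
        exact ha
      rw [smul_add, h3]
      abel
    rw [h2]
    exact Submodule.add_mem _ (Submodule.smul_mem _ _ hw)
      (Submodule.sum_mem _ fun l _ => Submodule.smul_mem _ _ (hzL l))
  have h4 : a (Fin.last m) • x = 0 := Submodule.disjoint_def.1 hL _ (Submodule.smul_mem _ _ hx) h1
  have h5 : a (Fin.last m) = 0 := by
    by_contra h
    exact hx0 (smul_cls h h4)
  rw [h5, zero_smul, add_zero] at ha
  have h6 := hz _ ha
  intro l
  refine Fin.lastCases h5 (fun l => h6 l) l

end Pool.Agent.H621.AF
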