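import Pool.Agent.H621.AF.Pub4

/-!
# The conjecture of Hodge type modulo numerical equivalence: definitions
-/

open CategoryTheory AlgebraicGeometry

universe u

namespace Pool.Agent.H621.AF

section alg

variable {K A : Type} [Field K] [Ring A] [Algebra K A]

/-- `c` is orthogonal to all `C i`. -/
def IsNumTrivial (tr : A →ₗ[K] K) (C : ℕ → Set A) (c : A) : Prop :=
  ∀ i, ∀ e ∈ C i, tr (c * e) = 0

/-- For `2 j ≤ n` and every element `c` of `C j` which is primitive modulo numerical equivalence and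
not numerically trivial, the number `tr (c d ^ (n - 2 j) c)` is rational with the sign
`(-1) ^ j`. -/
def NumHodgeElt (tr : A →ₗ[K] K) (C : ℕ → Set A) (n : ℕ) (d : A) : Prop :=
  ∀ j, 2 * j ≤ n → ∀ c ∈ C j, IsNumTrivial tr C (d ^ (n - 2 * j + 1) * c) →
    ¬ IsNumTrivial tr C c → ∃ q : ℚ, 0 < q ∧ tr (c * (d ^ (n - 2 * j) * c)) = (-1) ^ j * (q : K)

end alg

open Pool.Agent.TH125.Gal
open Pool.Agent.H914 Pool.Agent.H914.VarClass Pool.Agent.H914.VarClass.Obj

variable {k : Type u} [Field k] {𝒱 : VarClass k} {ops : CycleOps 𝒱}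
  {W : WeilCohomology.{u, 0} ops} {Γ : Type} [Group Γ]

/-- The conjecture of Hodge type for `(X, c)` modulo numerical equivalence. -/
def PVar.NumericalHodgeType (X : PVar W Γ) : Prop :=
  NumHodgeElt (W.tr X.V.X) (algClasses W X.V.X) X.V.X.dim X.c

end Pool.Agent.H621.AF
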