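import Pool.Agent.H621.AF.Chain

/-!
# The Tate conjecture for the products with the members outside of the exceptional set
-/

open CategoryTheory AlgebraicGeometry Finset Module

set_option linter.unusedSectionVars false

universe u

namespace Pool.Agent.H621.AF

open Pool.Agent.TH125.Gal
open Pool.Agent.H914 Pool.Agent.H914.VarClass Pool.Agent.H914.VarClass.Obj
  Pool.Agent.H914.WeilCohomology

variable {k : Type u} [Field k] {𝒱 : VarClass k} {ops : CycleOps 𝒱}
  {W : WeilCohomology.{u, 0} ops} {Γ : Type} [Group Γ] {χ : Γ →* W.Kˣ}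
  {P : FinRep W.K Γ} {J : Type} {F : J → Set (GVar W Γ)}

theorem EigenvaluesFrom.mono {S S' : Set J} (h : S ⊆ S') {Z : GVar W Γ}
    (hZ : EigenvaluesFrom χ P F S Z) : EigenvaluesFrom χ P F S' Z := by
  intro g x hx
  refine Subgroup.closure_mono ?_ (hZ g x hx)
  exact Set.union_subset_union_right _ (Set.biUnion_subset_biUnion_left h)

/-- The properties of a tower. -/
theorem tower_props [IsAlgClosed W.K] (hF : IndependentFamily χ F) {S : Set J} {Z : GVar W Γ}
    (hZd : RespectsDegrees Z) (hZ : EigenvaluesFrom χ P F S Z) {l : List (J × GVar W Γ)}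
    {Y : GVar W Γ} (hY : IsTower F Z l Y) :
    RespectsDegrees Y ∧ EigenvaluesFrom χ P F (S ∪ {i | ∃ p ∈ l, p.1 = i}) Y ∧
      (HasPoint Z → HasPoint Y) := by
  induction hY with
  | base => exact ⟨hZd, hZ.mono Set.subset_union_left, id⟩
  | @step l Y Y' i X hT hi hX hP ih =>
    obtain ⟨hYd, hY, hYp⟩ := ih
    obtain ⟨YX, υ⟩ := Y'
    obtain ⟨h0, h1, h2⟩ := hP
    change YX = X.X.prod Y.X at h0
    subst h0
    simp only [eqToHom_refl, Category.id_comp] at h1 h2
    refine ⟨graded_prod h1 h2 (hF.degrees i X hX) hYd, ?_,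
      fun h => point_prod (hF.point i X hX) (hYp h)⟩
    intro g x hx
    obtain ⟨a, b, rfl, ha, hb⟩ := eig_prod h1 h2 hx
    refine mul_mem ?_ ?_
    · refine Subgroup.subset_closure (Or.inr (Set.mem_iUnion₂.2 ⟨i, ?_, X, hX, ha⟩))
      exact Or.inr ⟨(i, X), List.mem_cons_self, rfl⟩
    · refine Subgroup.closure_mono ?_ (hY g b hb)
      refine Set.union_subset_union_right _ (Set.biUnion_subset_biUnion_left ?_)
      refine Set.union_subset_union_right _ ?_
      rintro _ ⟨p, hp, rfl⟩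
      exact ⟨p, List.mem_cons_of_mem _ hp, rfl⟩

/-- The members outside of the exceptional set are unlinked. -/
theorem tower_unlinked [IsAlgClosed W.K] (hF : IndependentFamily χ F) {S : Finset J}
    (hS : ∀ B : Finset J, ∀ i, i ∉ (S : Set J) ∪ B → ¬ LinkedTo χ P F ((S : Set J) ∪ B) i)
    {Z : GVar W Γ} (hZd : RespectsDegrees Z) (hZ : EigenvaluesFrom χ P F S Z)
    {l : List (J × GVar W Γ)} {Y : GVar W Γ} (hY : IsTower F Z l Y) {i : J}
    (hi : ∀ p ∈ l, p.1 ≠ i) (hiS : i ∉ S) {X : GVar W Γ} (hX : X ∈ F i) :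
    Unlinked χ (W.gr X.X) X.act Y.act := by
  classical
  obtain ⟨hYd, hYe, -⟩ := tower_props hF hZd hZ hY
  have hlink : ¬ LinkedTo χ P F ((S : Set J) ∪ (l.map Prod.fst).toFinset) i := by
    refine hS _ i ?_
    rintro (h | h)
    · exact hiS h
    · rw [Finset.mem_coe, List.mem_toFinset, List.mem_map] at h
      obtain ⟨p, hp, hpi⟩ := h
      exact hi p hp hpi
  by_contra hU
  refine hlink ⟨X, hX, Y, hYe.mono ?_, hU⟩
  refine Set.union_subset_union_right _ ?_
  rintro _ ⟨p, hp, rfl⟩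
  rw [Finset.mem_coe, List.mem_toFinset, List.mem_map]
  exact ⟨p, hp, rfl⟩

/-- **The Tate conjecture for towers.** -/
theorem tate_tower [IsAlgClosed W.K] (hF : IndependentFamily χ F) {S : Finset J}
    (hS : ∀ B : Finset J, ∀ i, i ∉ (S : Set J) ∪ B → ¬ LinkedTo χ P F ((S : Set J) ∪ B) i)
    {Z : GVar W Γ} (hZd : RespectsDegrees Z) (hZp : HasPoint Z)
    (hZ : EigenvaluesFrom χ P F S Z) {l : List (J × GVar W Γ)}
    {Y : GVar W Γ} (hY : IsTower F Z l Y) (hl : ∀ p ∈ l, p.1 ∉ S) :
    TateConjecture χ Y ↔ TateConjecture χ Z ∧ ∀ p ∈ l, TateConjecture χ p.2 := by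
  induction hY with
  | base => simp
  | @step l Y Y' i X hT hi hX hP ih =>
    have ih' := ih fun p hp => hl p (List.mem_cons_of_mem _ hp)
    have hU := tower_unlinked hF hS hZd hZ hT hi (hl _ List.mem_cons_self) hX
    obtain ⟨hYd, -, hYp⟩ := tower_props hF hZd hZ hT
    have hgoal : TateConjecture χ Y' ↔ TateConjecture χ Y ∧ TateConjecture χ X := by
      obtain ⟨YX, υ⟩ := Y'
      obtain ⟨h0, h1, h2⟩ := hP
      change YX = X.X.prod Y.X at h0
      subst h0
      simp only [eqToHom_refl, Category.id_comp] at h1 h2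
      exact ⟨fun h => ⟨tate_factor h2 (hF.point i X hX) h, tate_factor1 h1 (hYp hZp) h⟩,
        fun h => tate_prod h1 h2 hU hYd h.2 h.1⟩
    rw [hgoal, ih', and_assoc]
    refine and_congr_right fun _ => ?_
    constructor
    · rintro ⟨h1, h2⟩ p hp
      rcases List.mem_cons.1 hp with rfl | hp
      · exact h2
      · exact h1 p hp
    · intro h
      exact ⟨fun p hp => h p (List.mem_cons_of_mem _ hp), h (i, X) List.mem_cons_self⟩

end Pool.Agent.H621.AF
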